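import Pool.Agent.H77.ST.Base

/-!
The notions of the statement of MP_aba1db_lc, inside a structure `(N, E)`: the real numbers,
cardinalities below aleph omega, groups, free groups, analytic sets.
-/

namespace ST.AO

open ST

section
variable {N : Type} (E : N → N → Prop)

/-- `z` contains the empty set and with `y` also `y ∪ {y}` -/
def IsInductive (z : N) : Prop := (∃ e, (∀ t, ¬ E t e) ∧ E e z) ∧
  ∀ y, E y z → ∃ s, (∀ t, E t s ↔ E t y ∨ t = y) ∧ E s z

/-- `w` is the set of natural numbers (the least inductive set) -/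
def IsOmega (w : N) : Prop := IsInductive E w ∧ ∀ z, IsInductive E z → Incl E w z

/-- the triple `((a, b), c)` is a member of `P` -/
def Trp (a b c P : N) : Prop := ∃ p, IsOP E p a b ∧ PairIn E p c P

/-- `P` is (the graph of) an operation on `R` -/
def IsOperation (R P : N) : Prop :=
  (∀ a b, E a R → E b R → ∃ c, E c R ∧ Trp E a b c P) ∧
  ∀ a b c c', E a R → E b R → Trp E a b c P → Trp E a b c' P → c = c'

/-- `R` with addition `P`, multiplication `Q` (graphs), order `L` (set of pairs), zero `z` and
unit `u` is a complete ordered field, that is, a copy of the real numbers -/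
structure IsRealNumbers (R P Q L z u : N) : Prop where
  zero_mem : E z R
  one_mem : E u R
  ne : z ≠ u
  add_op : IsOperation E R P
  mul_op : IsOperation E R Q
  add_comm : ∀ a b c, E a R → E b R → Trp E a b c P → Trp E b a c P
  add_assoc : ∀ a b c x y s, E a R → E b R → E c R → Trp E a b x P → Trp E x c s P → Trp E b c y P →
    Trp E a y s P
  zero_add : ∀ a, E a R → Trp E z a a P
  neg : ∀ a, E a R → ∃ b, E b R ∧ Trp E a b z P
  mul_comm : ∀ a b c, E a R → E b R → Trp E a b c Q → Trp E b a c Q
  mul_assoc : ∀ a b c x y s, E a R → E b R → E c R → Trp E a b x Q → Trp E x c s Q → Trp E b c y Q →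
    Trp E a y s Q
  one_mul : ∀ a, E a R → Trp E u a a Q
  inv : ∀ a, E a R → a ≠ z → ∃ b, E b R ∧ Trp E a b u Q
  distrib : ∀ a b c s t x y, E a R → E b R → E c R → Trp E b c s P → Trp E a s t Q →
    Trp E a b x Q → Trp E a c y Q → Trp E x y t P
  le_refl : ∀ a, E a R → PairIn E a a L
  le_antisymm : ∀ a b, E a R → E b R → PairIn E a b L → PairIn E b a L → a = b
  le_trans : ∀ a b c, E a R → E b R → E c R → PairIn E a b L → PairIn E b c L → PairIn E a c L
  le_total : ∀ a b, E a R → E b R → PairIn E a b L ∨ PairIn E b a L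
  add_le : ∀ a b c x y, E a R → E b R → E c R → PairIn E a b L → Trp E a c x P → Trp E b c y P →
    PairIn E x y L
  mul_nonneg : ∀ a b c, E a R → E b R → PairIn E z a L → PairIn E z b L → Trp E a b c Q →
    PairIn E z c L
  sup : ∀ S, Incl E S R → (∃ a, E a S) → (∃ b, E b R ∧ ∀ a, E a S → PairIn E a b L) →
    ∃ s, E s R ∧ (∀ a, E a S → PairIn E a s L) ∧
      ∀ b, E b R → (∀ a, E a S → PairIn E a b L) → PairIn E s b L

/-- `f` is a function from `a` to `b` -/
def IsFunction (f a b : N) : Prop := (∀ z, E z f → ∃ x y, E x a ∧ E y b ∧ IsOP E z x y) ∧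
  ∀ x, E x a → ∃ y, PairIn E x y f ∧ ∀ y', PairIn E x y' f → y' = y

/-- there is an injective function from `a` to `b` -/
def Injects (a b : N) : Prop := ∃ f, IsFunction E f a b ∧
  ∀ x x' y, PairIn E x y f → PairIn E x' y f → x = x'

/-- `a` is an ordinal: a transitive set of transitive sets -/
def IsOrdinal (a : N) : Prop := (∀ y, E y a → Incl E y a) ∧ ∀ y, E y a → ∀ z, E z y → Incl E z y

/-- `b` is the least ordinal which does not inject into `a` -/
def IsNextCardinal (a b : N) : Prop := IsOrdinal E b ∧ ¬ Injects E b a ∧ ∀ c, E c b → Injects E c a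

/-- `x` has cardinality less than aleph omega: `x` injects into the cardinal aleph `n` for a
natural number `n`, where `f` is the function `k ↦ aleph k`, for `k = 0, ..., n` -/
def BelowAlephOmega (x : N) : Prop := ∃ w n f, IsOmega E w ∧ E n w ∧
  (∀ k, E k n ∨ k = n → ∃ a, PairIn E k a f ∧ ∀ a', PairIn E k a' f → a' = a) ∧
  (∀ e, (∀ t, ¬ E t e) → PairIn E e w f) ∧
  (∀ k s a b, E k n → (∀ t, E t s ↔ E t k ∨ t = k) → PairIn E k a f → PairIn E s b f →
    IsNextCardinal E a b) ∧
  ∃ a, PairIn E n a f ∧ Injects E x a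

/-- `G` with the operation `m` (a set of triples `((a, b), c)`) is a group -/
def IsGroup (G m : N) : Prop := IsOperation E G m ∧
  (∀ a b c x y s, E a G → E b G → E c G → Trp E a b x m → Trp E x c s m → Trp E b c y m →
    Trp E a y s m) ∧
  ∃ e, E e G ∧ (∀ a, E a G → Trp E e a a m ∧ Trp E a e a m) ∧
    ∀ a, E a G → ∃ b, E b G ∧ Trp E a b e m ∧ Trp E b a e m

/-- `h` is a homomorphism from the group `(G, m)` to the group `(K, k)` -/
def IsHom (G m K k h : N) : Prop := IsFunction E h G K ∧
  ∀ a b c x y z, E a G → E b G → E c G → Trp E a b c m → PairIn E a x h → PairIn E b y h →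
    PairIn E c z h → Trp E x y z k

/-- `B` is a basis of the group `(G, m)`: every function from `B` to a group `(K, k)` extends to
exactly one homomorphism from `(G, m)` to `(K, k)` -/
def IsBasis (G m B : N) : Prop := Incl E B G ∧ ∀ K k f, IsGroup E K k → IsFunction E f B K →
  ∃ h, (IsHom E G m K k h ∧ Incl E f h) ∧ ∀ h', IsHom E G m K k h' → Incl E f h' → h' = h

/-- the group `(G, m)` is free -/
def IsFree (G m : N) : Prop := ∃ B, IsBasis E G m B

/-- `b` is strictly between `a` and `c` in the linear order `L` (a set of pairs) -/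
def Btw (L a b c : N) : Prop := PairIn E a b L ∧ a ≠ b ∧ PairIn E b c L ∧ b ≠ c

/-- `m` is an analytic subset of `R × R × R`, where `R` is a copy of the real numbers with the
order `L`: it is a set of triples `((x, y), z)`, and there is a closed subset `C` of
`(R × R × R) × S`, where `S` is the space of all functions `u` from the set `o` of natural numbers
to itself, such that `m` is the projection of `C`. (Closed: if `(((x, y), z), u)` is not in `C`
then this also holds for all `x'`, `y'`, `z'` in suitable open intervals around `x`, `y`, `z` and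
all `u'` which agree with `u` below a suitable natural number `n`.) -/
def IsAnalytic (R L m : N) : Prop :=
  (∀ t, E t m → ∃ x y z p, E x R ∧ E y R ∧ E z R ∧ IsOP E p x y ∧ IsOP E t p z) ∧
  ∃ o C, IsOmega E o ∧
    (∀ x y z, E x R → E y R → E z R → (Trp E x y z m ↔
      ∃ u p q, IsFunction E u o o ∧ IsOP E p x y ∧ IsOP E q p z ∧ PairIn E q u C)) ∧
    ∀ x y z u, E x R → E y R → E z R → IsFunction E u o o →
      (¬ ∃ p q, IsOP E p x y ∧ IsOP E q p z ∧ PairIn E q u C) →
      ∃ a a' b b' c c' n, E a R ∧ E a' R ∧ E b R ∧ E b' R ∧ E c R ∧ E c' R ∧ E n o ∧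
        Btw E L a x a' ∧ Btw E L b y b' ∧ Btw E L c z c' ∧
        ∀ x' y' z' u', E x' R → E y' R → E z' R → IsFunction E u' o o →
          Btw E L a x' a' → Btw E L b y' b' → Btw E L c z' c' →
          (∀ k j, E k n → (PairIn E k j u ↔ PairIn E k j u')) →
          ¬ ∃ p q, IsOP E p x' y' ∧ IsOP E q p z' ∧ PairIn E q u' C

/-- In `N` there is a copy `R` of the real numbers and a group operation `m` on the set `R` whose
graph is an analytic subset of `R × R × R`, such that all subgroups of cardinality less than
aleph omega are free, but the group is not free. -/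
def NonFreeAnalyticGroup : Prop :=
  ∃ R P Q L z u m : N, IsRealNumbers E R P Q L z u ∧ IsGroup E R m ∧ IsAnalytic E R L m ∧
    (∀ H, Incl E H R → IsGroup E H m → BelowAlephOmega E H → IsFree E H m) ∧ ¬ IsFree E R m

end

end ST.AO
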