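import Pool.Agent.H77.ST.AOD
import Pool.Agent.H77.ST.Conv
import Pool.Agent.H98.AO.All

namespace ST.AO

open ST

theorem real_iff {N : Type} (E : N → N → Prop) (R P Q L z u : N) :
    @SW.IsRealNumbers N ⟨E⟩ R P Q L z u ↔ IsRealNumbers E R P Q L z u :=
  ⟨fun h => by
    obtain ⟨a1, a2, a3, a4, a5, a6, a7, a8, a9, b1, b2, b3, b4, b5, b6, b7, b8, b9, c1, c2, c3⟩ := h
    exact ⟨a1, a2, a3, a4, a5, a6, a7, a8, a9, b1, b2, b3, b4, b5, b6, b7, b8, b9, c1, c2, c3⟩,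
  fun h => by
    obtain ⟨a1, a2, a3, a4, a5, a6, a7, a8, a9, b1, b2, b3, b4, b5, b6, b7, b8, b9, c1, c2, c3⟩ := h
    exact @SW.IsRealNumbers.mk N ⟨E⟩ R P Q L z u a1 a2 a3 a4 a5 a6 a7 a8 a9 b1 b2 b3 b4 b5 b6 b7
      b8 b9 c1 c2 c3⟩

theorem non_iff {N : Type} (E : N → N → Prop) :
    @_root_.AO.NonFreeAnalyticGroup N ⟨E⟩ ↔ NonFreeAnalyticGroup E :=
  ⟨fun ⟨R, P, Q, L, z, u, m, h, h'⟩ => ⟨R, P, Q, L, z, u, m, (real_iff E R P Q L z u).1 h, h'⟩,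
   fun ⟨R, P, Q, L, z, u, m, h, h'⟩ => ⟨R, P, Q, L, z, u, m, (real_iff E R P Q L z u).2 h, h'⟩⟩

theorem main :
    ∃ φ : Fml 0,
      (∀ (N : Type) (E : N → N → Prop), Sat E φ Fin.elim0 ↔ NonFreeAnalyticGroup E) ∧
      ∃ (N : Type) (E : N → N → Prop), ZFC E ∧ Countable N ∧ WellFounded E ∧
        Sat E φ Fin.elim0 := by
  obtain ⟨φ, hφ⟩ := _root_.AO.exists_sentence
  obtain ⟨N, a, b, hc, hw, hN⟩ := _root_.AO.main
  have key : ∀ (N : Type) (E : N → N → Prop), Sat E (back φ) Fin.elim0 ↔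
      NonFreeAnalyticGroup E :=
    fun N E => ((sat_back E φ _).trans (@hφ N ⟨E⟩)).trans (non_iff E)
  obtain ⟨E⟩ := a
  exact ⟨back φ, key, N, E, zfc_of E b, hc, hw, (key N E).2 ((non_iff E).1 hN)⟩

end ST.AO
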