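import Mathlib.Data.Fin.Tuple.Basic
import Mathlib.Data.Countable.Defs

/-!
# Structures for the language of set theory

A structure for the language of set theory is a type `N` with a relation `E`; `E x y` means that
the point `x` is a member of the point `y`.
-/

namespace ST

/-- Formulas of the language of set theory, with free variables indexed by `Fin n`. -/
inductive Fml : ℕ → Type
  | mem {n : ℕ} (i j : Fin n) : Fml n
  | eq {n : ℕ} (i j : Fin n) : Fml n
  | bot {n : ℕ} : Fml n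
  | imp {n : ℕ} (f g : Fml n) : Fml n
  | all {n : ℕ} (f : Fml (n + 1)) : Fml n

section
variable {N : Type} (E : N → N → Prop)

/-- Satisfaction of formulas: `v i ∈ v j`, `v i = v j`, falsity, implication, and
`∀ x` (in `all f` the quantified variable has index `0`). -/
def Sat {n : ℕ} (f : Fml n) : (Fin n → N) → Prop :=
  Fml.rec (motive := fun n _ => (Fin n → N) → Prop)
    (fun i j v => E (v i) (v j))
    (fun i j v => v i = v j)
    (fun _ => False)
    (fun _ _ satf satg v => satf v → satg v)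
    (fun _ satf v => ∀ x : N, satf (Fin.cons x v)) f

/-- The structure satisfies the axioms of ZFC (separation and replacement as schemes). -/
structure ZFC : Prop where
  extensionality : ∀ x y : N, (∀ z, E z x ↔ E z y) → x = y
  foundation : ∀ x : N, (∃ y, E y x) → ∃ y, E y x ∧ ∀ z, E z x → ¬ E z y
  pairing : ∀ x y : N, ∃ z, ∀ w, E w z ↔ w = x ∨ w = y
  union : ∀ x : N, ∃ u, ∀ w, E w u ↔ ∃ y, E y x ∧ E w y
  power : ∀ x : N, ∃ p, ∀ w, E w p ↔ ∀ z, E z w → E z x
  infinity : ∃ x : N, (∃ e, E e x ∧ ∀ z, ¬ E z e) ∧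
    ∀ y, E y x → ∃ s, E s x ∧ ∀ w, E w s ↔ E w y ∨ w = y
  separation : ∀ (n : ℕ) (f : Fml (n + 1)) (v : Fin n → N) (a : N),
    ∃ b, ∀ x, E x b ↔ E x a ∧ Sat E f (Fin.cons x v)
  replacement : ∀ (n : ℕ) (f : Fml (n + 2)) (v : Fin n → N) (a : N),
    (∀ x, E x a → ∃! y, Sat E f (Fin.cons x (Fin.cons y v))) →
      ∃ b, ∀ y, E y b ↔ ∃ x, E x a ∧ Sat E f (Fin.cons x (Fin.cons y v))
  choice : ∀ x : N, (∀ y, E y x → ∃ z, E z y) →
    (∀ y y' z, E y x → E y' x → E z y → E z y' → y = y') →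
    ∃ c, ∀ y, E y x → ∃ z, (E z y ∧ E z c) ∧ ∀ z', E z' y → E z' c → z' = z

/-- `z` is the ordered pair of `a` and `b` (Kuratowski). -/
def IsOP (z a b : N) : Prop :=
  ∃ s t : N, (∀ w, E w s ↔ w = a) ∧ (∀ w, E w t ↔ w = a ∨ w = b) ∧ (∀ w, E w z ↔ w = s ∨ w = t)

/-- the ordered pair of `a` and `b` is a member of `r` -/
def PairIn (a b r : N) : Prop := ∃ z, IsOP E z a b ∧ E z r

/-- `x ⊆ y` -/
def Incl (x y : N) : Prop := ∀ z, E z x → E z y

end

end ST
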