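import Pool.Agent.H77.ST.Base

/-!
The notions of the statement of MP_fe7b28_co, inside a structure `(N, E)`: the first uncountable
ordinal, groups, connection sets of Cayley graphs, graphs and induced subgraphs.
-/

namespace ST.CA

open ST

section
variable {N : Type} (E : N → N → Prop)

/-- `z` contains the empty set and with `y` also `y ∪ {y}` -/
def IsInductive (z : N) : Prop := (∃ e, (∀ t, ¬ E t e) ∧ E e z) ∧
  ∀ y, E y z → ∃ s, (∀ t, E t s ↔ E t y ∨ t = y) ∧ E s z

/-- `w` is the set of natural numbers (the least inductive set) -/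
def IsOmega (w : N) : Prop := IsInductive E w ∧ ∀ z, IsInductive E z → Incl E w z

/-- the triple `(x, (y, z))` is a member of `R` -/
def Trr (x y z R : N) : Prop := ∃ u, IsOP E u y z ∧ PairIn E x u R

/-- `f` is (the graph of) a function from `a` to `b` -/
def IsFn (f a b : N) : Prop :=
  (∀ z, E z f → ∃ x y, E x a ∧ E y b ∧ IsOP E z x y) ∧ (∀ x, E x a → ∃ y, PairIn E x y f) ∧
  ∀ x y y', PairIn E x y f → PairIn E x y' f → y = y'

/-- `f` is an injective function from `a` to `b` -/
def IsInjFn (f a b : N) : Prop := IsFn E f a b ∧ ∀ x x' y, PairIn E x y f → PairIn E x' y f → x = x'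

/-- the size of `a` is at most the size of `b` -/
def SizeLe (a b : N) : Prop := ∃ f, IsInjFn E f a b

/-- `V` is the first uncountable ordinal (`w` is the set of natural numbers): it is transitive
and linearly ordered by membership, uncountable, and each of its elements is countable -/
def IsOmegaOne (w V : N) : Prop := (∀ x, E x V → Incl E x V) ∧
  (∀ x y, E x V → E y V → E x y ∨ x = y ∨ E y x) ∧ ¬ SizeLe E V w ∧ ∀ x, E x V → SizeLe E x w

/-- `X` is (the set of ordered pairs of adjacent vertices of) a graph with vertex set `V` -/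
def IsGraph (V X : N) : Prop := (∀ z, E z X → ∃ u v, E u V ∧ E v V ∧ IsOP E z u v) ∧
  (∀ u v, PairIn E u v X → PairIn E v u X) ∧ ∀ u, ¬ PairIn E u u X

/-- `e` is the unit of `G` with the multiplication `m` (`m` is a set of triples, and
`Trr x y z m` says that the triple `(x, (y, z))` belongs to `m`, that is, `x y = z`) -/
def IsUnitOf (e G m : N) : Prop := E e G ∧ ∀ x, E x G → Trr E e x x m ∧ Trr E x e x m

/-- `G` with the multiplication `m` is a group -/
def IsGroup (G m : N) : Prop :=
  (∀ x y, E x G → E y G → ∃ z, E z G ∧ Trr E x y z m ∧ ∀ z', Trr E x y z' m → z' = z) ∧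
  (∀ x y z a b p q, E x G → E y G → E z G → Trr E x y a m → Trr E a z p m → Trr E y z b m →
    Trr E x b q m → p = q) ∧
  ∃ e, IsUnitOf E e G m ∧ ∀ x, E x G → ∃ y, E y G ∧ Trr E x y e m ∧ Trr E y x e m

/-- `S` is a connection set of a Cayley graph of the group `G`: a set of elements of `G` which
does not contain the unit, is closed under inverses, and generates `G` -/
def IsConnection (G m S : N) : Prop := Incl E S G ∧ (∀ e, IsUnitOf E e G m → ¬ E e S) ∧
  (∀ e x y, IsUnitOf E e G m → E x S → E y G → Trr E x y e m → E y S) ∧
  ∀ H, Incl E S H → Incl E H G → (∀ e, IsUnitOf E e G m → E e H) →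
    (∀ x y z, E x H → E y H → Trr E x y z m → E z H) →
    (∀ e x y, IsUnitOf E e G m → E x H → E y G → Trr E x y e m → E y H) → ∀ x, E x G → E x H

/-- `f` is an embedding of the graph `X` with vertex set `V` as an induced subgraph of the
Cayley graph of the group `G` with connection set `S`: it is injective, and `u`, `v` are adjacent
if and only if `f u * s = f v` for some `s` in `S` -/
def EmbedsInduced (V X G m S f : N) : Prop := IsInjFn E f V G ∧
  ∀ u v x y, E u V → E v V → PairIn E u x f → PairIn E v y f →
    (PairIn E u v X ↔ ∃ s, E s S ∧ Trr E x s y m)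

/-- The cardinal aleph one does not work for aleph one: there are a graph `X` on the first
uncountable ordinal `V` and a group `G` of order at least aleph one such that `X` is not an
induced subgraph of any Cayley graph of `G`. -/
def AlephOneDoesNotWork : Prop := ∃ w V X G m : N, IsOmega E w ∧
  IsOmegaOne E w V ∧ IsGraph E V X ∧ IsGroup E G m ∧ SizeLe E V G ∧
  ∀ S, IsConnection E G m S → ∀ f, ¬ EmbedsInduced E V X G m S f

end

end ST.CA
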