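import Pool.Agent.H77.ST.CAD
import Pool.Agent.H77.ST.Conv
import Pool.Agent.H77.CAY.Final
import Pool.Agent.H77.CAY.Sent

namespace ST.CA

open ST

theorem main :
    ∃ φ : Fml 0,
      (∀ (N : Type) (E : N → N → Prop), Sat E φ Fin.elim0 ↔ AlephOneDoesNotWork E) ∧
      ∃ (N : Type) (E : N → N → Prop), ZFC E ∧ Countable N ∧ WellFounded E ∧
        Sat E φ Fin.elim0 := by
  obtain ⟨φ, hφ⟩ := CAY.exists_sentence
  obtain ⟨N, a, b, hc, hw, hN⟩ := CAY.model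
  have key : ∀ (N : Type) (E : N → N → Prop), Sat E (back φ) Fin.elim0 ↔
      AlephOneDoesNotWork E :=
    fun N E => (sat_back E φ _).trans (@hφ N ⟨E⟩)
  obtain ⟨E⟩ := a
  exact ⟨back φ, key, N, E, zfc_of E b, hc, hw, (key N E).2 hN⟩

end ST.CA
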