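import Pool.Agent.H77.ST.Base

/-!
The notions of the statement of MP_66b893_lc, inside a structure `(N, E)`: ordinals, measures,
ideals, cut and choose games.
-/

namespace ST.CC

open ST

section
variable {N : Type} (E : N → N → Prop)

/-- `x` is an ordinal: a transitive set whose members are transitive -/
def IsOrdinal (x : N) : Prop := (∀ y, E y x → ∀ z, E z y → E z x) ∧
  ∀ t, E t x → ∀ y, E y t → ∀ z, E z y → E z t

/-- `g` is a limit ordinal (different from the empty set) -/
def IsLimit (g : N) : Prop := IsOrdinal E g ∧ (∃ x, E x g) ∧ ∀ x, E x g → ∃ y, E y g ∧ E x y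

/-- `f` is a function on `a` with values in `b` (pairs with first entry not in `a` do not
matter) -/
def IsFunc (f a b : N) : Prop := ∀ x, E x a → ∃ y, E y b ∧ PairIn E x y f ∧
  ∀ y', PairIn E x y' f → y' = y

/-- `k` is an uncountable regular cardinal: an ordinal above some limit ordinal such that every
function from a member of `k` to `k` is bounded in `k` -/
def IsRegular (k : N) : Prop := IsOrdinal E k ∧ (∃ w, E w k ∧ IsLimit E w) ∧
  ∀ v f, E v k → IsFunc E f v k → ∃ b, E b k ∧ ∀ x y, E x v → PairIn E x y f → E y b

/-- `U` is a nonprincipal `k`-complete ultrafilter on the uncountable cardinal `k`: a family of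
subsets of `k`, closed under supersets, containing exactly one of `X` and `k \ X` for every
subset `X` of `k`, containing no set with at most one element, and closed under intersections of
families indexed by members of `k` -/
def IsMeasure (k U : N) : Prop := IsOrdinal E k ∧ (∃ w, E w k ∧ IsLimit E w) ∧
  (∀ X, E X U → Incl E X k) ∧
  (∀ X Y, E X U → Incl E X Y → Incl E Y k → E Y U) ∧
  (∀ X Y, Incl E X k → (∀ z, E z Y ↔ E z k ∧ ¬ E z X) → (E X U ↔ ¬ E Y U)) ∧
  (∀ X a, (∀ z, E z X → z = a) → ¬ E X U) ∧
  ∀ v f X, E v k → IsFunc E f v U →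
    (∀ z, E z X ↔ E z k ∧ ∀ x y, E x v → PairIn E x y f → E z y) → E X U

/-- `B` is the ideal of bounded subsets of `k` -/
def IsBoundedIdeal (k B : N) : Prop := ∀ X, E X B ↔ ∃ b, E b k ∧ Incl E X b

/-- `I` is a `<k`-closed ideal on `k` which contains all bounded subsets of `k` and does not
contain `k`: it is a family of subsets of `k`, closed under subsets and under unions of families
indexed by members of `k` -/
def IsIdeal (k I : N) : Prop := (∀ X, E X I → Incl E X k) ∧
  (∀ X Y, E X I → Incl E Y X → E Y I) ∧
  (∀ b X, E b k → Incl E X b → E X I) ∧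
  ¬ E k I ∧
  ∀ v f X, E v k → IsFunc E f v I →
    (∀ z, E z X ↔ ∃ x y, E x v ∧ PairIn E x y f ∧ E z y) → E X I

/-- `r` is the restriction of `c` to the stages `≤ x` -/
def IsRestr (r c x : N) : Prop := ∀ z, E z r ↔ E z c ∧ ∃ i y, IsOP E z i y ∧ (E i x ∨ i = x)

/-- `Z` is the answer of the strategy `s` at stage `x` to the moves `c` of Cut -/
def Answers (s c x Z : N) : Prop := ∃ r, IsRestr E r c x ∧ PairIn E r Z s

/-- `C` is the current set before stage `x`: the set of all elements of `k` which belong to all
earlier choices of `s` -/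
def IsCurrent (k s c x C : N) : Prop := ∀ z, E z C ↔ E z k ∧
  ∀ i Z, E i x → Answers E s c i Z → E z Z

/-- `c` is a sequence of moves of Cut of length `g`, played against the strategy `s` -/
def IsPlay (k s c g : N) : Prop := ∀ x, E x g → ∃ A, PairIn E x A c ∧
  (∀ A', PairIn E x A' c → A' = A) ∧ ∀ C, IsCurrent E k s c x C → Incl E A C

/-- `s` is a winning strategy of Choose in the game of length `g` on `k` with the ideal `I`: in
all plays of Cut, at every stage the strategy picks one of the two pieces `A` and `C \ A` of the
current set `C`, and after the last stage the current set is not in `I` -/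
def IsWinning (k I g s : N) : Prop := ∀ c, IsPlay E k s c g →
  (∀ x A C, E x g → PairIn E x A c → IsCurrent E k s c x C →
    ∃ Z, Answers E s c x Z ∧ (∀ Z', Answers E s c x Z' → Z' = Z) ∧
      (Z = A ∨ ∀ z, E z Z ↔ E z C ∧ ¬ E z A)) ∧
  ∀ C, IsCurrent E k s c g C → ¬ E C I

/-- In the structure `N` there are a measurable cardinal `k` and a `<k`-closed ideal `J` on `k`
containing the ideal `B` of bounded sets, such that for all limit ordinals `g` below `k` Choose
has a winning strategy in the cut and choose game of length `g` with the ideal `B`, but none in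
the game with the ideal `J`. -/
def IdealDependence : Prop := ∃ k U B J : N,
  IsRegular E k ∧ IsMeasure E k U ∧ IsBoundedIdeal E k B ∧ IsIdeal E k B ∧ IsIdeal E k J ∧
  ∀ g, E g k → IsLimit E g → (∃ s, IsWinning E k B g s) ∧ ¬ ∃ s, IsWinning E k J g s

end

end ST.CC
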