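import Pool.Agent.H77.ST.CCD
import Pool.Agent.H77.ST.Conv
import Pool.Agent.H94.CC.All

namespace ST.CC

open ST

theorem main :
    ∃ φ : Fml 0,
      (∀ (N : Type) (E : N → N → Prop), Sat E φ Fin.elim0 ↔ IdealDependence E) ∧
      (∀ (M : Type) (D : M → M → Prop), Countable M → ZFC D → (∃ k U : M, IsMeasure D k U) →
        ∃ (N : Type) (E : N → N → Prop) (i : M → N),
          ZFC E ∧ IsGenExt D E i ∧ Sat E φ Fin.elim0) ∧
      ∀ (M : Type) (D : M → M → Prop), ZFC D → (∃ k U : M, IsMeasure D k U) →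
        ∃ (N : Type) (E : N → N → Prop), ZFC E ∧ Sat E φ Fin.elim0 := by
  obtain ⟨φ, hφ⟩ := SW.CC.t_sentence
  have key : ∀ (N : Type) (E : N → N → Prop), Sat E (back φ) Fin.elim0 ↔ IdealDependence E :=
    fun N E => (sat_back E φ _).trans (@hφ N ⟨E⟩)
  refine ⟨back φ, key, ?_, ?_⟩
  · intro M D hc hz h
    obtain ⟨N, a, b, i, hi, hN⟩ := @SW.CC.t_gen M ⟨D⟩ (zfc_to D hz) hc h
    obtain ⟨E⟩ := a
    exact ⟨N, E, i, zfc_of E b, gen_of D E i hi, (key N E).2 hN⟩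
  · intro M D hz h
    obtain ⟨N, a, b, hN⟩ := @SW.CC.t_con M ⟨D⟩ (zfc_to D hz) h
    obtain ⟨E⟩ := a
    exact ⟨N, E, zfc_of E b, (key N E).2 hN⟩

end ST.CC
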