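import Pool.Agent.H77.ST.Base

/-!
The notions of the statement of MP_ec4214_lc, inside a structure `(N, E)`: the set of natural numbers,
countable sets, trees of functions from countable ordinals to the set of natural numbers, Aronszajn
trees, meets, the colouring axiom for a tree, the continuum hypothesis.
-/

namespace ST.CT

open ST

section
variable {N : Type} (E : N → N → Prop)

/-- `z` contains the empty set and with `y` also `y ∪ {y}` -/
def IsInductive (z : N) : Prop := (∃ e, (∀ t, ¬ E t e) ∧ E e z) ∧
  ∀ y, E y z → ∃ s, (∀ t, E t s ↔ E t y ∨ t = y) ∧ E s z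

/-- `w` is the set of natural numbers (the least inductive set) -/
def IsOmega (w : N) : Prop := IsInductive E w ∧ ∀ z, IsInductive E z → Incl E w z

/-- `x` is countable: there is an injective function from `x` to the set of natural numbers -/
def IsCountable (x : N) : Prop := ∃ w f, IsOmega E w ∧
  (∀ y, E y x → ∃ n, E n w ∧ PairIn E y n f) ∧
  (∀ y n n', PairIn E y n f → PairIn E y n' f → n = n') ∧
  ∀ y y' n, E y x → E y' x → PairIn E y n f → PairIn E y' n f → y = y'

/-- `x` is a transitive set -/
def IsTransitive (x : N) : Prop := ∀ y, E y x → Incl E y x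

/-- `w` is the first uncountable ordinal: a transitive set of transitive sets, which is not
countable, all members of which are countable -/
def IsOmegaOne (w : N) : Prop := (IsTransitive E w ∧ ∀ y, E y w → IsTransitive E y) ∧
  ¬ IsCountable E w ∧ ∀ a, E a w → IsCountable E a

/-- the continuum hypothesis: there are `w`, the first uncountable ordinal, and `f` which assigns
members of `w` to the subsets of the set of natural numbers, injectively -/
def ContinuumHypothesis : Prop := ∃ w o f : N, IsOmegaOne E w ∧ IsOmega E o ∧
  (∀ x, Incl E x o → ∃ a, E a w ∧ PairIn E x a f) ∧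
  ∀ x x' a, Incl E x o → Incl E x' o → PairIn E x a f → PairIn E x' a f → x = x'

/-- `v` is a function from `a` to `o` -/
def IsFunction (v a o : N) : Prop := (∀ z, E z v → ∃ x y, E x a ∧ E y o ∧ IsOP E z x y) ∧
  ∀ x, E x a → ∃ y, PairIn E x y v ∧ ∀ y', PairIn E x y' v → y' = y

/-- `u` is the restriction of the function `v` to `a` -/
def IsRestriction (u v a : N) : Prop := ∀ z, E z u ↔ E z v ∧ ∃ x y, E x a ∧ IsOP E z x y

/-- `T` is a downwards closed set of functions from members of `w` to `o` -/
def IsTreeOfFunctions (w o T : N) : Prop := (∀ v, E v T → ∃ a, E a w ∧ IsFunction E v a o) ∧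
  ∀ v u a, E v T → E a w → IsRestriction E u v a → E u T

/-- `T` is an Aronszajn tree, a downwards closed subtree of the tree of all functions from
countable ordinals to the set `o` of natural numbers (`w` is the first uncountable ordinal):
every level (the set of members with domain `a`, for `a` in `w`) is nonempty and countable, and
every chain is countable -/
def IsAronszajnTree (w o T : N) : Prop := IsTreeOfFunctions E w o T ∧
  (∀ a, E a w → ∃ v, E v T ∧ IsFunction E v a o) ∧
  (∀ a L, E a w → (∀ v, E v L ↔ E v T ∧ IsFunction E v a o) → IsCountable E L) ∧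
  ∀ C, Incl E C T → (∀ u v, E u C → E v C → Incl E u v ∨ Incl E v u) → IsCountable E C

/-- `u` is the meet of the incomparable functions `x` and `y`: for some `d` they have different
values at `d`, and `u` is the restriction of both of them to `d` -/
def IsMeetOf (u x y : N) : Prop := ∃ d, (∃ m n, PairIn E d m x ∧ PairIn E d n y ∧ m ≠ n) ∧
  IsRestriction E u x d ∧ IsRestriction E u y d

/-- the tree `T` satisfies CAT: for every subset `K` of `T` there is an uncountable antichain `A`
of `T` such that the meets of distinct members of `A` all belong to `K`, or all of them do not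
belong to `K` -/
def SatisfiesCAT (T : N) : Prop := ∀ K, Incl E K T → ∃ A, Incl E A T ∧ ¬ IsCountable E A ∧
  (∀ x y, E x A → E y A → x ≠ y → ¬ Incl E x y ∧ ∃ u, IsMeetOf E u x y) ∧
  ((∀ x y u, E x A → E y A → x ≠ y → IsMeetOf E u x y → E u K) ∨
    ∀ x y u, E x A → E y A → x ≠ y → IsMeetOf E u x y → ¬ E u K)

/-- CH and an Aronszajn tree satisfying CAT, in `N` -/
def CHWithCATTree : Prop := ContinuumHypothesis E ∧
  ∃ w o T : N, IsOmegaOne E w ∧ IsOmega E o ∧ IsAronszajnTree E w o T ∧ SatisfiesCAT E T

end

end ST.CT
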