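import Pool.Agent.H77.ST.CTD
import Pool.Agent.H77.ST.Conv
import Pool.Agent.H93.CT.All

namespace ST.CT

open ST

theorem main :
    ∃ φ : Fml 0,
      (∀ (N : Type) (E : N → N → Prop), Sat E φ Fin.elim0 ↔ CHWithCATTree E) ∧
      (∀ (M : Type) (D : M → M → Prop), Countable M → ZFC D →
        ∃ (N : Type) (E : N → N → Prop) (i : M → N),
          ZFC E ∧ IsGenExt D E i ∧ Sat E φ Fin.elim0) ∧
      (∀ (M : Type) (D : M → M → Prop), ZFC D →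
        ∃ (N : Type) (E : N → N → Prop), ZFC E ∧ Sat E φ Fin.elim0) ∧
      ∃ (N : Type) (E : N → N → Prop), ZFC E ∧ Countable N ∧ Sat E φ Fin.elim0 := by
  obtain ⟨φ, hφ⟩ := SW.ct_sentence
  obtain ⟨h1, h2, h3⟩ := SW.u_all
  have key : ∀ (N : Type) (E : N → N → Prop), Sat E (back φ) Fin.elim0 ↔ CHWithCATTree E :=
    fun N E => (sat_back E φ _).trans (@hφ N ⟨E⟩)
  refine ⟨back φ, key, ?_, ?_, ?_⟩
  · intro M D hc hz
    obtain ⟨N, a, b, i, hi, hN⟩ := @h1 M ⟨D⟩ (zfc_to D hz) hc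
    obtain ⟨E⟩ := a
    exact ⟨N, E, i, zfc_of E b, gen_of D E i hi, (key N E).2 hN⟩
  · intro M D hz
    obtain ⟨N, a, b, hN⟩ := @h2 M ⟨D⟩ (zfc_to D hz)
    obtain ⟨E⟩ := a
    exact ⟨N, E, zfc_of E b, (key N E).2 hN⟩
  · obtain ⟨N, a, b, hc, hN⟩ := h3
    obtain ⟨E⟩ := a
    exact ⟨N, E, zfc_of E b, hc, (key N E).2 hN⟩

end ST.CT
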