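import Pool.Agent.H77.ST.BaseZ
import Mathlib.Algebra.Order.Ring.Defs
import Mathlib.Algebra.Field.Defs
import Mathlib.Order.Bounds.Defs

/-!
The notions of the statement of MP_4abb39_lc, inside a structure `(N, E)` for the language of set
theory: countable sets, the countable union condition, compact metrizable spaces, separability.
-/

namespace ST.CU

open STZ

section
variable {N : Type} (E : N → N → Prop)

/-- `z` contains the empty set and with `y` also `y ∪ {y}` -/
def IsInd (z : N) : Prop := (∃ e, (∀ t, ¬ E t e) ∧ E e z) ∧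
  ∀ y, E y z → ∃ s, (∀ t, E t s ↔ E t y ∨ t = y) ∧ E s z

/-- `w` is the set of natural numbers (the least inductive set) -/
def IsOm (w : N) : Prop := IsInd E w ∧ ∀ z, IsInd E z → ∀ n, E n w → E n z

/-- `f` is an injective function with domain `x` and values in `w` -/
def InjFun (f x w : N) : Prop :=
  (∀ z, E z f → ∃ b j, E b x ∧ E j w ∧ IsOP E z b j) ∧
  (∀ b, E b x → ∃ j, PairIn E b j f) ∧
  (∀ b j j', PairIn E b j f → PairIn E b j' f → j = j') ∧
  (∀ b b' j, PairIn E b j f → PairIn E b' j f → b = b')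

/-- `x` is countable: there is an injective function from `x` to the set of natural numbers -/
def Ctb (x : N) : Prop := ∃ w f, IsOm E w ∧ InjFun E f x w

/-- `x` is finite: there is an injective function from `x` to a natural number -/
def Fin' (x : N) : Prop := ∃ w n f, IsOm E w ∧ E n w ∧ InjFun E f x n

/-- `((x, y), z) ∈ R` -/
def Tri (x y z R : N) : Prop := ∃ u, IsOP E u x y ∧ PairIn E u z R

/-- The union of every countable family of countable sets is countable. -/
def CUC : Prop := ∀ F : N, Ctb E F → (∀ x, E x F → Ctb E x) →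
  ∀ u, (∀ w, E w u ↔ ∃ x, E x F ∧ E w x) → Ctb E u

/-- `τ` is a topology on the set `S` -/
def IsTop (S τ : N) : Prop :=
  (∀ U, E U τ → ∀ x, E x U → E x S) ∧
  (∀ U, (∀ x, E x U ↔ E x S) → E U τ) ∧
  (∀ U V W, E U τ → E V τ → (∀ x, E x W ↔ E x U ∧ E x V) → E W τ) ∧
  (∀ C W, (∀ U, E U C → E U τ) → (∀ x, E x W ↔ ∃ U, E U C ∧ E x U) → E W τ)

/-- Every cover of `S` by open sets has a finite subcover. -/
def IsCpt (S τ : N) : Prop :=
  ∀ C, (∀ U, E U C → E U τ) → (∀ x, E x S → ∃ U, E U C ∧ E x U) →
    ∃ D, Fin' E D ∧ (∀ U, E U D → E U C) ∧ ∀ x, E x S → ∃ U, E U D ∧ E x U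

/-- There is a countable dense subset. -/
def IsSep (S τ : N) : Prop :=
  ∃ D, (∀ x, E x D → E x S) ∧ Ctb E D ∧ ∀ U, E U τ → (∃ x, E x U) → ∃ x, E x U ∧ E x D

/-- `v` is a bijection from the ordered field `R` to the members of `K`, the addition, the
multiplication and the order of `R` are coded by the sets `ad`, `mu`, `lt`, and every nonempty
bounded set (of the structure) of members of `K` has a least upper bound: `K` is a real line of
the structure. -/
def IsLine {R : Type} [Field R] [LinearOrder R] (v : R → N) (K ad mu lt : N) : Prop :=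
  (∀ a b, v a = v b → a = b) ∧ (∀ x, E x K ↔ ∃ a, x = v a) ∧
  (∀ a b c, Tri E (v a) (v b) (v c) ad ↔ a + b = c) ∧
  (∀ a b c, Tri E (v a) (v b) (v c) mu ↔ a * b = c) ∧
  (∀ a b, PairIn E (v a) (v b) lt ↔ a < b) ∧
  ∀ A, (∃ a, E (v a) A) → (∃ b, ∀ a, E (v a) A → a ≤ b) → ∃ b, IsLUB {a | E (v a) A} b

/-- The set `d` codes a metric on `S` (the function `δ`) whose open sets are the members of
`τ`. -/
def IsDist {R : Type} [Field R] [LinearOrder R] (v : R → N) (δ : N → N → R) (S τ d : N) : Prop :=
  (∀ x y r, E x S → E y S → (Tri E x y (v r) d ↔ δ x y = r)) ∧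
  (∀ x y, E x S → E y S → (δ x y = 0 ↔ x = y)) ∧
  (∀ x y, E x S → E y S → δ x y = δ y x) ∧
  (∀ x y z, E x S → E y S → E z S → δ x z ≤ δ x y + δ y z) ∧
  ∀ U, E U τ ↔ (∀ x, E x U → E x S) ∧
    ∀ x, E x U → ∃ ε, 0 < ε ∧ ∀ y, E y S → δ x y < ε → E y U

/-- `K` with the operations and the order coded by the sets `ad`, `mu`, `lt` is a real line of
the structure, and `d` codes a metric on `S` with values in `K` whose open sets are the
members of `τ`. -/
def IsMetr (S τ K ad mu lt d : N) : Prop :=
  ∃ (R : Type) (_ : Field R) (_ : LinearOrder R) (_ : IsStrictOrderedRing R) (v : R → N)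
    (δ : N → N → R), IsLine E v K ad mu lt ∧ IsDist E v δ S τ d

/-- The topology is induced by a metric. -/
def Metrizable (S τ : N) : Prop := ∃ K ad mu lt d : N, IsMetr E S τ K ad mu lt d

/-- `M(C, S)`: every compact metrizable topological space is separable. -/
def MCS : Prop := ∀ S τ : N, IsTop E S τ → IsCpt E S τ → Metrizable E S τ → IsSep E S τ

end

end ST.CU
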