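import Pool.Agent.H77.ST.BaseZ
import Pool.Agent.H35.SW.Core

namespace STZ

def tr : {n : ℕ} → Fml n → SW.Fml n
  | _, .mem i j => .mem i j
  | _, .eq i j => .eq i j
  | _, .bot => .bot
  | _, .imp f g => .imp (tr f) (tr g)
  | _, .all f => .all (tr f)

def back : {n : ℕ} → SW.Fml n → Fml n
  | _, .mem i j => .mem i j
  | _, .eq i j => .eq i j
  | _, .bot => .bot
  | _, .imp f g => .imp (back f) (back g)
  | _, .all f => .all (back f)

theorem sat_tr {N : Type} (E : N → N → Prop) : ∀ {n : ℕ} (f : Fml n) (v : Fin n → N),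
    @SW.Sat N ⟨E⟩ n (tr f) v ↔ Sat E f v
  | _, .mem i j, v => Iff.rfl
  | _, .eq i j, v => Iff.rfl
  | _, .bot, v => Iff.rfl
  | _, .imp f g, v => by
    have h1 := sat_tr E f v
    have h2 := sat_tr E g v
    exact imp_congr h1 h2
  | _, .all f, v => by
    have h1 := fun x : N => sat_tr E f (Fin.cons x v)
    exact forall_congr' h1

theorem sat_back {N : Type} (E : N → N → Prop) : ∀ {n : ℕ} (f : SW.Fml n) (v : Fin n → N),
    Sat E (back f) v ↔ @SW.Sat N ⟨E⟩ n f v
  | _, .mem i j, v => Iff.rfl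
  | _, .eq i j, v => Iff.rfl
  | _, .bot, v => Iff.rfl
  | _, .imp f g, v => by
    have h1 := sat_back E f v
    have h2 := sat_back E g v
    exact imp_congr h1 h2
  | _, .all f, v => by
    have h1 := fun x : N => sat_back E f (Fin.cons x v)
    exact forall_congr' h1

theorem zf_of {N : Type} (E : N → N → Prop) (h : @SW.ZF N ⟨E⟩) : ZF E := by
  let _ : SW.SetStr N := ⟨E⟩
  refine ⟨h.ext, h.found, h.pair, h.union, h.power, h.infinity, ?_, ?_⟩
  · intro n f v a
    obtain ⟨b, hb⟩ := h.sep n (tr f) v a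
    refine ⟨b, fun x => ?_⟩
    exact (hb x).trans (and_congr_right fun _ => sat_tr E f _)
  · intro n f v a hf
    have hf' : ∀ x, SW.E x a → ∃! y, SW.Sat (tr f) (Fin.cons x (Fin.cons y v)) := by
      intro x hx
      obtain ⟨y, hy, hu⟩ := hf x hx
      refine ⟨y, (sat_tr E f _).2 hy, fun z hz => hu z ((sat_tr E f _).1 hz)⟩
    obtain ⟨b, hb⟩ := h.repl n (tr f) v a hf'
    refine ⟨b, fun y => (hb y).trans ?_⟩
    exact exists_congr fun x => and_congr_right fun _ => sat_tr E f _

theorem zf_to {N : Type} (E : N → N → Prop) (h : ZF E) : @SW.ZF N ⟨E⟩ := by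
  let _ : SW.SetStr N := ⟨E⟩
  refine ⟨h.extensionality, h.foundation, h.pairing, h.union, h.power, h.infinity, ?_, ?_⟩
  · intro n f v a
    obtain ⟨b, hb⟩ := h.separation n (back f) v a
    refine ⟨b, fun x => ?_⟩
    exact (hb x).trans (and_congr_right fun _ => sat_back E f _)
  · intro n f v a hf
    have hf' : ∀ x, E x a → ∃! y, Sat E (back f) (Fin.cons x (Fin.cons y v)) := by
      intro x hx
      obtain ⟨y, hy, hu⟩ := hf x hx
      refine ⟨y, (sat_back E f _).2 hy, fun z hz => hu z ((sat_back E f _).1 hz)⟩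
    obtain ⟨b, hb⟩ := h.replacement n (back f) v a hf'
    refine ⟨b, fun y => (hb y).trans ?_⟩
    exact exists_congr fun x => and_congr_right fun _ => sat_back E f _

end STZ
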