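import Pool.Agent.H77.ST.CUD
import Pool.Agent.H77.ST.ConvZ
import Pool.Agent.H78.CUR.Final

namespace ST.CU

open STZ

theorem metr_of {N : Type} (E : N → N → Prop) (S τ K ad mu lt d : N)
    (h : @CUR.IsMetr N ⟨E⟩ S τ K ad mu lt d) : IsMetr E S τ K ad mu lt d := by
  classical
  let _ : SW.SetStr N := ⟨E⟩
  obtain ⟨i1, i2, i3, h1, h2, h3, h4, δ, g1, g2, g3, g4, g5⟩ := h
  obtain ⟨D, hD⟩ : ∃ D : N → N → {x : N // SW.E x K}, ∀ x y (hx : SW.E x S) (hy : SW.E y S),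
      D x y = δ ⟨x, hx⟩ ⟨y, hy⟩ := by
    refine ⟨fun x y => if h : SW.E x S ∧ SW.E y S then δ ⟨x, h.1⟩ ⟨y, h.2⟩ else 0, ?_⟩
    intro x y hx hy
    exact dif_pos (⟨hx, hy⟩ : SW.E x S ∧ SW.E y S)
  refine ⟨{x : N // SW.E x K}, i1, i2, i3, Subtype.val, D,
    ⟨fun a b h => Subtype.ext h, fun x => ⟨fun h => ⟨⟨x, h⟩, rfl⟩, ?_⟩, h1, h2, h3, h4⟩,
    ?_, ?_, ?_, ?_, ?_⟩
  · rintro ⟨a, rfl⟩
    exact a.2
  · intro x y r hx hy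
    rw [hD x y hx hy]
    exact g1 ⟨x, hx⟩ ⟨y, hy⟩ r
  · intro x y hx hy
    rw [hD x y hx hy]
    exact (g2 ⟨x, hx⟩ ⟨y, hy⟩).trans ⟨fun h => congrArg Subtype.val h, fun h => Subtype.ext h⟩
  · intro x y hx hy
    rw [hD x y hx hy, hD y x hy hx]
    exact g3 ⟨x, hx⟩ ⟨y, hy⟩
  · intro x y z hx hy hz
    rw [hD x z hx hz, hD x y hx hy, hD y z hy hz]
    exact g4 ⟨x, hx⟩ ⟨y, hy⟩ ⟨z, hz⟩
  · intro U
    refine (g5 U).trans (and_congr_right fun hU => ⟨fun h x hx => ?_, fun h x hx => ?_⟩)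
    · obtain ⟨ε, hε, h'⟩ := h ⟨x, hU x hx⟩ hx
      refine ⟨ε, hε, fun y hy hd => ?_⟩
      rw [hD x y (hU x hx) hy] at hd
      exact h' ⟨y, hy⟩ hd
    · obtain ⟨ε, hε, h'⟩ := h x.1 hx
      refine ⟨ε, hε, fun y hd => h' y.1 y.2 ?_⟩
      rw [hD x.1 y.1 x.2 y.2]
      exact hd

theorem main : ∃ (N : Type) (E : N → N → Prop), ZF E ∧ Countable N ∧ WellFounded E ∧
    CUC E ∧ ¬ MCS E := by
  obtain ⟨N, a, hz, hc, hw, hu, hm⟩ := CUR.final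
  obtain ⟨E⟩ := a
  refine ⟨N, E, zf_of E hz, hc, hw, hu, fun h => hm ?_⟩
  intro S τ h1 h2 h3
  obtain ⟨K, ad, mu, lt, d, h3⟩ := h3
  exact h S τ h1 h2 ⟨K, ad, mu, lt, d, metr_of E S τ K ad mu lt d h3⟩

end ST.CU
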