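import Pool.Agent.H14.FRU.Core

/-!
Formulas of set theory and their truth, the axioms of ZFC, and generic extensions, for a membership
relation on a type. (Ordered pairs `IsOP`, `PairIn` are defined in `Pool/Agent/H14/FRU/Core.lean`.)
-/

namespace ST.FR

open FRU

universe u

/-- Formulas of the language of set theory, with free variables indexed by `Fin n`. -/
inductive Fml : ℕ → Type
  | mem {n : ℕ} (i j : Fin n) : Fml n
  | eq {n : ℕ} (i j : Fin n) : Fml n
  | bot {n : ℕ} : Fml n
  | imp {n : ℕ} (f g : Fml n) : Fml n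
  | all {n : ℕ} (f : Fml (n + 1)) : Fml n

/-- `Holds e f v`: the formula `f` is true for the membership relation `e` and the values `v` of
the variables: `v i ∈ v j`, `v i = v j`, falsity, implication, and `∀ x` (in `all f` the
quantified variable has index `0`). -/
def Holds {V : Type u} (e : V → V → Prop) {n : ℕ} (f : Fml n) : (Fin n → V) → Prop :=
  Fml.rec (motive := fun n _ => (Fin n → V) → Prop)
    (fun i j v => e (v i) (v j))
    (fun i j v => v i = v j)
    (fun _ => False)
    (fun _ _ hf hg v => hf v → hg v)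
    (fun _ hf v => ∀ x : V, hf (Fin.cons x v)) f

/-- The type `N` with the membership relation `e` satisfies the axioms of ZFC (separation and
replacement as schemes). -/
structure ZFC {N : Type} (e : N → N → Prop) : Prop where
  extensionality : ∀ x y : N, (∀ z, e z x ↔ e z y) → x = y
  foundation : ∀ x : N, (∃ y, e y x) → ∃ y, e y x ∧ ∀ z, e z x → ¬ e z y
  pairing : ∀ x y : N, ∃ z, ∀ w, e w z ↔ w = x ∨ w = y
  union : ∀ x : N, ∃ u, ∀ w, e w u ↔ ∃ y, e y x ∧ e w y
  power : ∀ x : N, ∃ p, ∀ w, e w p ↔ ∀ z, e z w → e z x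
  infinity : ∃ x : N, (∃ t, e t x ∧ ∀ z, ¬ e z t) ∧
    ∀ y, e y x → ∃ s, e s x ∧ ∀ w, e w s ↔ e w y ∨ w = y
  separation : ∀ (n : ℕ) (f : Fml (n + 1)) (v : Fin n → N) (a : N),
    ∃ b, ∀ x, e x b ↔ e x a ∧ Holds e f (Fin.cons x v)
  replacement : ∀ (n : ℕ) (f : Fml (n + 2)) (v : Fin n → N) (a : N),
    (∀ x, e x a → ∃! y, Holds e f (Fin.cons x (Fin.cons y v))) →
      ∃ b, ∀ y, e y b ↔ ∃ x, e x a ∧ Holds e f (Fin.cons x (Fin.cons y v))
  choice : ∀ x : N, (∀ y, e y x → ∃ z, e z y) →
    (∀ y y' z, e y x → e y' x → e z y → e z y' → y = y') →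
    ∃ c, ∀ y, e y x → ∃ z, (e z y ∧ e z c) ∧ ∀ z', e z' y → e z' c → z' = z

/-- `P` with the order `le` (a set of pairs) is a poset (a quasiorder) with largest element `one`
in the structure `(M, m)`. -/
def IsPoset {M : Type} (m : M → M → Prop) (P le one : M) : Prop :=
  m one P ∧ (∀ p, m p P → PairIn m p p le) ∧
  (∀ p q r, m p P → m q P → m r P → PairIn m p q le → PairIn m q r le → PairIn m p r le) ∧
  ∀ p, m p P → PairIn m p one le

/-- In `(N, e)`, the set `y` is the value of the name `t` for the filter `G`: there is a function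
`f` with `f t = y` and `f s = {f r : (r, p) ∈ s for some p ∈ G}` for all `s` in its domain. -/
def IsVal {N : Type} (e : N → N → Prop) (G t y : N) : Prop :=
  ∃ f, PairIn e t y f ∧ (∀ s z z', PairIn e s z f → PairIn e s z' f → z = z') ∧
    ∀ s z, PairIn e s z f →
      (∀ r p, e p G → PairIn e r p s → ∃ w, PairIn e r w f) ∧
      (∀ w, e w z ↔ ∃ r p, e p G ∧ PairIn e r p s ∧ PairIn e r w f)

/-- `(N, e)`, with the embedding `i`, is a generic extension `M[G]` of `(M, m)`: the image of `M` is
a transitive class of `N`, and there are a poset `P` in `M` with largest element and an element `G`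
of `N` which is a filter on `P` meeting all dense subsets of `P` in `M`, such that every
element of `N` is the value of a name in `M`. -/
def IsGenExt {M N : Type} (m : M → M → Prop) (e : N → N → Prop) (i : M → N) : Prop :=
  (∀ x y, i x = i y → x = y) ∧ (∀ x y, e (i x) (i y) ↔ m x y) ∧
  (∀ x z, e z (i x) → ∃ y, z = i y) ∧
  ∃ (P le one : M) (G : N), IsPoset m P le one ∧
    (∀ z, e z G → ∃ p, m p P ∧ z = i p) ∧
    e (i one) G ∧
    (∀ p q, e (i p) G → m q P → PairIn m p q le → e (i q) G) ∧
    (∀ p q, e (i p) G → e (i q) G → ∃ r, e (i r) G ∧ PairIn m r p le ∧ PairIn m r q le) ∧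
    (∀ d, (∀ p, m p P → ∃ q, m q P ∧ m q d ∧ PairIn m q p le) → ∃ p, m p P ∧ m p d ∧ e (i p) G) ∧
    (∀ y : N, ∃ t : M, IsVal e G (i t) y)

end ST.FR
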