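import Pool.Agent.H77.ST.FRD
import Pool.Agent.H14.FRU.All

namespace ST.FR

open FRU

universe u

def tr : {n : ℕ} → Fml n → SW.Fml n
  | _, .mem i j => .mem i j
  | _, .eq i j => .eq i j
  | _, .bot => .bot
  | _, .imp f g => .imp (tr f) (tr g)
  | _, .all f => .all (tr f)

def back : {n : ℕ} → SW.Fml n → Fml n
  | _, .mem i j => .mem i j
  | _, .eq i j => .eq i j
  | _, .bot => .bot
  | _, .imp f g => .imp (back f) (back g)
  | _, .all f => .all (back f)

theorem sat_tr {N : Type} (E : N → N → Prop) : ∀ {n : ℕ} (f : Fml n) (v : Fin n → N),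
    @SW.Sat N ⟨E⟩ n (tr f) v ↔ Holds E f v
  | _, .mem i j, v => Iff.rfl
  | _, .eq i j, v => Iff.rfl
  | _, .bot, v => Iff.rfl
  | _, .imp f g, v => by
    have h1 := sat_tr E f v
    have h2 := sat_tr E g v
    exact imp_congr h1 h2
  | _, .all f, v => by
    have h1 := fun x : N => sat_tr E f (Fin.cons x v)
    exact forall_congr' h1

theorem holds_back {V : Type u} (E : V → V → Prop) : ∀ {n : ℕ} (f : SW.Fml n) (v : Fin n → V),
    Holds E (back f) v ↔ FRU.Holds E f v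
  | _, .mem i j, v => Iff.rfl
  | _, .eq i j, v => Iff.rfl
  | _, .bot, v => Iff.rfl
  | _, .imp f g, v => by
    have h1 := holds_back E f v
    have h2 := holds_back E g v
    exact imp_congr h1 h2
  | _, .all f, v => by
    have h1 := fun x : V => holds_back E f (Fin.cons x v)
    exact forall_congr' h1

theorem sat_back {N : Type} (E : N → N → Prop) {n : ℕ} (f : SW.Fml n) (v : Fin n → N) :
    Holds E (back f) v ↔ @SW.Sat N ⟨E⟩ n f v :=
  (holds_back E f v).trans (@FRU.holds_sat n N ⟨E⟩ f v)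

theorem zfc_of {N : Type} (E : N → N → Prop) (h : @SW.ZFC N ⟨E⟩) : ZFC E := by
  let _ : SW.SetStr N := ⟨E⟩
  refine ⟨h.ext, h.found, h.pair, h.union, h.power, h.infinity, ?_, ?_, h.choice⟩
  · intro n f v a
    obtain ⟨b, hb⟩ := h.sep n (tr f) v a
    refine ⟨b, fun x => ?_⟩
    exact (hb x).trans (and_congr_right fun _ => sat_tr E f _)
  · intro n f v a hf
    have hf' : ∀ x, SW.E x a → ∃! y, SW.Sat (tr f) (Fin.cons x (Fin.cons y v)) := by
      intro x hx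
      obtain ⟨y, hy, hu⟩ := hf x hx
      refine ⟨y, (sat_tr E f _).2 hy, fun z hz => hu z ((sat_tr E f _).1 hz)⟩
    obtain ⟨b, hb⟩ := h.repl n (tr f) v a hf'
    refine ⟨b, fun y => (hb y).trans ?_⟩
    exact exists_congr fun x => and_congr_right fun _ => sat_tr E f _

theorem zfc_to {N : Type} (E : N → N → Prop) (h : ZFC E) : @SW.ZFC N ⟨E⟩ := by
  let _ : SW.SetStr N := ⟨E⟩
  have hz : SW.ZF N := by
    refine ⟨h.extensionality, h.foundation, h.pairing, h.union, h.power, h.infinity, ?_, ?_⟩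
    · intro n f v a
      obtain ⟨b, hb⟩ := h.separation n (back f) v a
      refine ⟨b, fun x => ?_⟩
      exact (hb x).trans (and_congr_right fun _ => sat_back E f _)
    · intro n f v a hf
      have hf' : ∀ x, E x a → ∃! y, Holds E (back f) (Fin.cons x (Fin.cons y v)) := by
        intro x hx
        obtain ⟨y, hy, hu⟩ := hf x hx
        refine ⟨y, (sat_back E f _).2 hy, fun z hz => hu z ((sat_back E f _).1 hz)⟩
      obtain ⟨b, hb⟩ := h.replacement n (back f) v a hf'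
      refine ⟨b, fun y => (hb y).trans ?_⟩
      exact exists_congr fun x => and_congr_right fun _ => sat_back E f _
  exact { toZF := hz, choice := h.choice }

theorem gen_of {M N : Type} (D : M → M → Prop) (E : N → N → Prop) (i : M → N)
    (h : @SW.IsGenExt M N ⟨D⟩ ⟨E⟩ i) : IsGenExt D E i := by
  let _ : SW.SetStr M := ⟨D⟩
  let _ : SW.SetStr N := ⟨E⟩
  obtain ⟨h1, h2, h3, P, le, one, G, hP, h4⟩ := h
  exact ⟨h1, h2, h3, P, le, one, G, ⟨hP.one_mem, hP.refl, hP.trans, hP.le_one⟩, h4⟩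

theorem main : ∃ φ ψ : Fml 0,
    (∀ (V : Type 1) (e : V → V → Prop), (Holds e φ Fin.elim0 ↔ LadderPrinciple e) ∧
      (Holds e ψ Fin.elim0 ↔ LuzinAxiom e)) ∧
    (∀ (V : Type) (e : V → V → Prop), (Holds e φ Fin.elim0 ↔ LadderPrinciple e) ∧
      (Holds e ψ Fin.elim0 ↔ LuzinAxiom e)) ∧
    (Holds (fun x y : ZFSet.{0} => x ∈ y) φ Fin.elim0 → ¬ Question) ∧
    (Holds (fun x y : ZFSet.{0} => x ∈ y) ψ Fin.elim0 → Question) ∧
    (∀ (M : Type) (m : M → M → Prop), Countable M → ZFC m →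
      (∃ (N₁ : Type) (e₁ : N₁ → N₁ → Prop) (i : M → N₁), ZFC e₁ ∧ IsGenExt m e₁ i ∧
        ∃ (N : Type) (e : N → N → Prop) (j : N₁ → N), ZFC e ∧ IsGenExt e₁ e j ∧
          Holds e φ Fin.elim0) ∧
      ∃ (N : Type) (e : N → N → Prop) (i : M → N), ZFC e ∧ IsGenExt m e i ∧
        Holds e ψ Fin.elim0) ∧
    (∀ (M : Type) (m : M → M → Prop), ZFC m →
      (∃ (N : Type) (e : N → N → Prop), ZFC e ∧ Countable N ∧ Holds e φ Fin.elim0) ∧
      ∃ (N : Type) (e : N → N → Prop), ZFC e ∧ Countable N ∧ Holds e ψ Fin.elim0) ∧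
    ∃ (M : Type) (m : M → M → Prop), ZFC m ∧ Countable M := by
  obtain ⟨φ, ψ, h1, h2, h3, h4, h5, h6, h7⟩ := FRU.independence
  refine ⟨back φ, back ψ,
    fun V e => ⟨(holds_back e φ _).trans (h1 V e).1, (holds_back e ψ _).trans (h1 V e).2⟩,
    fun V e => ⟨(holds_back e φ _).trans (h2 V e).1, (holds_back e ψ _).trans (h2 V e).2⟩,
    fun h => h3 ((holds_back _ φ _).1 h), fun h => h4 ((holds_back _ ψ _).1 h), ?_, ?_, ?_⟩
  · intro M m hc hm
    obtain ⟨⟨N₁, a, b, i, hi, N, c, d, j, hj, hN⟩, N', a', b', i', hi', hN'⟩ :=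
      @h5 M ⟨m⟩ (zfc_to m hm) hc
    obtain ⟨e₁⟩ := a
    obtain ⟨e⟩ := c
    obtain ⟨e'⟩ := a'
    exact ⟨⟨N₁, e₁, i, zfc_of e₁ b, gen_of m e₁ i hi, N, e, j, zfc_of e d, gen_of e₁ e j hj,
      (holds_back e φ _).2 hN⟩, N', e', i', zfc_of e' b', gen_of m e' i' hi',
      (holds_back e' ψ _).2 hN'⟩
  · intro M m hm
    obtain ⟨⟨N, a, b, hc, hN⟩, N', a', b', hc', hN'⟩ := @h6 M ⟨m⟩ (zfc_to m hm)
    obtain ⟨e⟩ := a
    obtain ⟨e'⟩ := a'
    exact ⟨⟨N, e, zfc_of e b, hc, (holds_back e φ _).2 hN⟩, N', e', zfc_of e' b', hc',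
      (holds_back e' ψ _).2 hN'⟩
  · obtain ⟨M, a, b, hc⟩ := h7
    obtain ⟨m⟩ := a
    exact ⟨M, m, zfc_of m b, hc⟩

end ST.FR
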