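import Pool.Agent.H77.ST.Base

/-!
# Generic extensions
-/

namespace ST

/-- `P` with the order `le` (a set of pairs) is a poset (a quasiorder) with largest element `one`
in the structure `(M, D)`. -/
def IsPoset {M : Type} (D : M → M → Prop) (P le one : M) : Prop :=
  D one P ∧ (∀ p, D p P → PairIn D p p le) ∧
  (∀ p q r, D p P → D q P → D r P → PairIn D p q le → PairIn D q r le → PairIn D p r le) ∧
  ∀ p, D p P → PairIn D p one le

/-- In `(N, E)`, the set `y` is the value of the name `t` for the filter `G`: there is a function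
`f` with `f t = y` and `f s = {f r : (r, p) ∈ s for some p ∈ G}` for all `s` in its domain. -/
def IsVal {N : Type} (E : N → N → Prop) (G t y : N) : Prop :=
  ∃ f, PairIn E t y f ∧ (∀ s z z', PairIn E s z f → PairIn E s z' f → z = z') ∧
    ∀ s z, PairIn E s z f →
      (∀ r p, E p G → PairIn E r p s → ∃ w, PairIn E r w f) ∧
      (∀ w, E w z ↔ ∃ r p, E p G ∧ PairIn E r p s ∧ PairIn E r w f)

/-- `(N, E)`, with the embedding `i`, is a generic extension `M[G]` of `(M, D)`: the image of `M` is
a transitive class of `N`, and there are a poset `P` in `M` with largest element and an element `G`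
of `N` which is a filter on `P` meeting all dense subsets of `P` in `M`, such that every
element of `N` is the value of a name in `M`. -/
def IsGenExt {M N : Type} (D : M → M → Prop) (E : N → N → Prop) (i : M → N) : Prop :=
  (∀ x y, i x = i y → x = y) ∧ (∀ x y, E (i x) (i y) ↔ D x y) ∧
  (∀ x z, E z (i x) → ∃ y, z = i y) ∧
  ∃ (P le one : M) (G : N), IsPoset D P le one ∧
    (∀ z, E z G → ∃ p, D p P ∧ z = i p) ∧
    E (i one) G ∧
    (∀ p q, E (i p) G → D q P → PairIn D p q le → E (i q) G) ∧
    (∀ p q, E (i p) G → E (i q) G → ∃ r, E (i r) G ∧ PairIn D r p le ∧ PairIn D r q le) ∧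
    (∀ d, (∀ p, D p P → ∃ q, D q P ∧ D q d ∧ PairIn D q p le) → ∃ p, D p P ∧ D p d ∧ E (i p) G) ∧
    (∀ y : N, ∃ t : M, IsVal E G (i t) y)

end ST
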