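import Pool.Agent.H77.ST.BaseZ

/-!
The notions of the statement of MP_6baf15_lc: generic extensions, independent switches, and the
forcing relation inside a structure `(N, E)` for the language of set theory.
-/

namespace ST.IW

open STZ

/-! ### posets and generic extensions -/

/-- `P` with the order `le` (a set of pairs) is a poset (a quasiorder) with largest element `one`
in the structure `(N, E)`. -/
def IsPoset {N : Type} (E : N → N → Prop) (P le one : N) : Prop :=
  E one P ∧ (∀ p, E p P → PairIn E p p le) ∧
  (∀ p q r, E p P → E q P → E r P → PairIn E p q le → PairIn E q r le → PairIn E p r le) ∧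
  ∀ p, E p P → PairIn E p one le

/-- In `(N, E)`, the set `y` is the value of the name `t` for the filter `G`: there is a function
`f` with `f t = y` and `f s = {f r : (r, p) ∈ s for some p ∈ G}` for all `s` in its domain. -/
def IsVal {N : Type} (E : N → N → Prop) (G t y : N) : Prop :=
  ∃ f, PairIn E t y f ∧ (∀ s z z', PairIn E s z f → PairIn E s z' f → z = z') ∧
    ∀ s z, PairIn E s z f →
      (∀ r p, E p G → PairIn E r p s → ∃ w, PairIn E r w f) ∧
      (∀ w, E w z ↔ ∃ r p, E p G ∧ PairIn E r p s ∧ PairIn E r w f)

/-- `(N, E)`, with the embedding `i`, is a generic extension `M[G]` of `(M, D)`: the image of `M` is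
a transitive class of `N`, and there are a poset `P` in `M` with largest element and an element `G`
of `N` which is a filter on `P` meeting all dense subsets of `P` in `M`, such that every
element of `N` is the value of a name in `M`. -/
def IsGenExt {M N : Type} (D : M → M → Prop) (E : N → N → Prop) (i : M → N) : Prop :=
  (∀ x y, i x = i y → x = y) ∧ (∀ x y, E (i x) (i y) ↔ D x y) ∧
  (∀ x z, E z (i x) → ∃ y, z = i y) ∧
  ∃ (P le one : M) (G : N), IsPoset D P le one ∧
    (∀ z, E z G → ∃ p, D p P ∧ z = i p) ∧
    E (i one) G ∧
    (∀ p q, E (i p) G → D q P → PairIn D p q le → E (i q) G) ∧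
    (∀ p q, E (i p) G → E (i q) G → ∃ r, E (i r) G ∧ PairIn D r p le ∧ PairIn D r q le) ∧
    (∀ d, (∀ p, D p P → ∃ q, D q P ∧ D q d ∧ PairIn D q p le) → ∃ p, D p P ∧ D p d ∧ E (i p) G) ∧
    (∀ y : N, ∃ t : M, IsVal E G (i t) y)

/-- `φ` is a family of independent switches over the structure `(M, D)`: over every generic
extension `N` of `M` which satisfies ZF, and for every pattern `ε`, there is a further generic
extension `N'` of `N` which satisfies ZF and in which, for each `k`, the sentence `φ k` holds
exactly when `ε k` is true. -/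
def IndepSwitches {n : ℕ} (φ : Fin n → Fml 0) {M : Type} (D : M → M → Prop) : Prop :=
  ∀ (N : Type) (E : N → N → Prop) (i : M → N), ZF E → IsGenExt D E i → ∀ ε : Fin n → Bool,
    ∃ (N' : Type) (E' : N' → N' → Prop) (j : N → N'), ZF E' ∧ IsGenExt E E' j ∧
      ∀ k, Sat E' (φ k) Fin.elim0 ↔ ε k = true

/-! ### the forcing relation in a structure -/

section
variable {N : Type} (E : N → N → Prop)

/-- the triple `(p, (a, b))` is a member of `R` -/
def TrIn (p a b R : N) : Prop := ∃ z, IsOP E z a b ∧ PairIn E p z R

/-- `R` is a set of triples `(q, (a, b))` with `q` a condition, such that for every pair `(c, s)` in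
`a` and every `r` below `q` and `s` there are `r'` below `r` and a pair `(d, s')` in `b` with `r'`
below `s'` and `(r', (c, d)) ∈ R`, and the same with `a` and `b` interchanged. -/
def IsBis (P le R : N) : Prop := ∀ q a b, TrIn E q a b R → E q P ∧
  (∀ c s r, PairIn E c s a → E s P → E r P → PairIn E r q le → PairIn E r s le →
    ∃ r' d s', E r' P ∧ PairIn E r' r le ∧ PairIn E d s' b ∧ E s' P ∧ PairIn E r' s' le ∧
      TrIn E r' c d R) ∧
  (∀ d s r, PairIn E d s b → E s P → E r P → PairIn E r q le → PairIn E r s le →
    ∃ r' c s', E r' P ∧ PairIn E r' r le ∧ PairIn E c s' a ∧ E s' P ∧ PairIn E r' s' le ∧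
      TrIn E r' c d R)

/-- `p` forces `a = b` -/
def ForcesEq (P le p a b : N) : Prop := ∃ R, IsBis E P le R ∧ TrIn E p a b R

/-- `p` forces `a ∈ b` -/
def ForcesMem (P le p a b : N) : Prop := E p P ∧ ∀ q, E q P → PairIn E q p le →
  ∃ r d s, E r P ∧ PairIn E r q le ∧ PairIn E d s b ∧ E s P ∧ PairIn E r s le ∧
    ForcesEq E P le r a d

/-- The forcing relation for all formulas: `Forces E P le f p v` says that `p` forces `f` with the
parameters `v`; by recursion on `f` (membership, equality, falsity, implication, `∀ x`). -/
def Forces (P le : N) {n : ℕ} (f : Fml n) : N → (Fin n → N) → Prop :=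
  Fml.rec (motive := fun n _ => N → (Fin n → N) → Prop)
    (fun i j p v => ForcesMem E P le p (v i) (v j))
    (fun i j p v => ForcesEq E P le p (v i) (v j))
    (fun _ _ => False)
    (fun _ _ f1 f2 p v => ∀ q, E q P → PairIn E q p le → f1 q v → f2 q v)
    (fun _ f1 p v => ∀ x : N, f1 p (Fin.cons x v)) f

/-- In `(N, E)` there is a poset with a condition which forces, for each `k`, the sentence `φ k` if
`ε k` is true, and its negation if `ε k` is false. -/
def CanForce {n : ℕ} (φ : Fin n → Fml 0) (ε : Fin n → Bool) : Prop :=
  ∃ P le one p : N, IsPoset E P le one ∧ E p P ∧ ∀ k,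
    (ε k = true → Forces E P le (φ k) p Fin.elim0) ∧
    (ε k = false → Forces E P le (.imp (φ k) .bot) p Fin.elim0)

end

end ST.IW
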