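import Pool.Agent.H77.ST.IWD
import Pool.Agent.H77.ST.ConvZ
import Pool.Agent.H35.SW.All

namespace ST.IW

open STZ

theorem gen_of {M N : Type} (D : M → M → Prop) (E : N → N → Prop) (i : M → N)
    (h : @SW.IsGenExt M N ⟨D⟩ ⟨E⟩ i) : IsGenExt D E i := by
  let _ : SW.SetStr M := ⟨D⟩
  let _ : SW.SetStr N := ⟨E⟩
  obtain ⟨h1, h2, h3, P, le, one, G, hP, h4⟩ := h
  exact ⟨h1, h2, h3, P, le, one, G, ⟨hP.one_mem, hP.refl, hP.trans, hP.le_one⟩, h4⟩

theorem gen_to {M N : Type} (D : M → M → Prop) (E : N → N → Prop) (i : M → N)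
    (h : IsGenExt D E i) : @SW.IsGenExt M N ⟨D⟩ ⟨E⟩ i := by
  let _ : SW.SetStr M := ⟨D⟩
  let _ : SW.SetStr N := ⟨E⟩
  obtain ⟨h1, h2, h3, P, le, one, G, hP, h4⟩ := h
  exact ⟨h1, h2, h3, P, le, one, G, ⟨hP.1, hP.2.1, hP.2.2.1, hP.2.2.2⟩, h4⟩

theorem forces_back {N : Type} (E : N → N → Prop) (P le : N) :
    ∀ {n : ℕ} (f : SW.Fml n) (p : N) (v : Fin n → N),
    Forces E P le (back f) p v ↔ @SW.Forces N ⟨E⟩ P le n f p v
  | _, .mem i j, p, v => Iff.rfl
  | _, .eq i j, p, v => Iff.rfl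
  | _, .bot, p, v => Iff.rfl
  | _, .imp f g, p, v => by
    have h1 := forces_back E P le f
    have h2 := forces_back E P le g
    exact forall_congr' fun q => imp_congr_right fun _ => imp_congr_right fun _ =>
      imp_congr (h1 q v) (h2 q v)
  | _, .all f, p, v => by
    have h1 := fun x : N => forces_back E P le f p (Fin.cons x v)
    exact forall_congr' h1

theorem can_iff {n : ℕ} (φ : Fin n → SW.Fml 0) (ε : Fin n → Bool) {N : Type}
    (E : N → N → Prop) : CanForce E (fun k => back (φ k)) ε ↔ @SW.CanForce n φ ε N ⟨E⟩ := by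
  let _ : SW.SetStr N := ⟨E⟩
  constructor
  · rintro ⟨P, le, one, p, hP, hp, hk⟩
    refine ⟨P, le, one, p, ⟨hP.1, hP.2.1, hP.2.2.1, hP.2.2.2⟩, hp, fun k => ?_⟩
    by_cases h : ε k = true
    · rw [if_pos h]
      exact (forces_back E P le (φ k) p _).1 ((hk k).1 h)
    · rw [if_neg h]
      exact (forces_back E P le (.imp (φ k) .bot) p _).1
        ((hk k).2 (Bool.eq_false_of_not_eq_true h))
  · rintro ⟨P, le, one, p, hP, hp, hk⟩
    refine ⟨P, le, one, p, ⟨hP.one_mem, hP.refl, hP.trans, hP.le_one⟩, hp, fun k => ⟨?_, ?_⟩⟩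
    · intro h
      have := hk k
      rw [if_pos h] at this
      exact (forces_back E P le (φ k) p _).2 this
    · intro h
      have := hk k
      rw [if_neg (by rw [h]; exact Bool.false_ne_true)] at this
      exact (forces_back E P le (.imp (φ k) .bot) p _).2 this

theorem main (n : ℕ) : ∃ φ : Fin n → Fml 0,
    (∀ (M : Type) (D : M → M → Prop), Countable M → ZF D → IndepSwitches φ D) ∧
    ∃ χ : (Fin n → Bool) → Fml 0,
      (∀ (ε : Fin n → Bool) (N : Type) (E : N → N → Prop),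
        Sat E (χ ε) Fin.elim0 ↔ CanForce E φ ε) ∧
      ∀ (ε : Fin n → Bool) (N : Type) (E : N → N → Prop) (P le one p : N), ZF E →
        IsPoset E P le one → E p P → Forces E P le (χ ε) p Fin.elim0 := by
  obtain ⟨φ, h1, χ, h2, h3⟩ := SW.allModules n
  refine ⟨fun k => back (φ k), ?_, fun ε => back (χ ε), ?_, ?_⟩
  · intro M D hM hD N E i hE hi ε
    let _ : SW.SetStr M := ⟨D⟩
    let _ : SW.SetStr N := ⟨E⟩
    have _ : SW.ZF M := zf_to D hD
    have _ : SW.ZF N := zf_to E hE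
    obtain ⟨N', s', z', j, hj, hk⟩ := h1 M N i (gen_to D E i hi) ε
    obtain ⟨E'⟩ := s'
    exact ⟨N', E', j, zf_of E' z', gen_of E E' j hj, fun k => (sat_back E' _ _).trans (hk k)⟩
  · intro ε N E
    let _ : SW.SetStr N := ⟨E⟩
    exact (sat_back E _ _).trans ((h2 ε N).trans (can_iff φ ε E).symm)
  · intro ε N E P le one p hE hP hp
    let _ : SW.SetStr N := ⟨E⟩
    have _ : SW.ZF N := zf_to E hE
    exact (forces_back E P le _ p _).2
      (h3 N ε P le one p ⟨hP.1, hP.2.1, hP.2.2.1, hP.2.2.2⟩ hp)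

end ST.IW
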