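import Pool.Agent.H77.ST.Base

/-!
The notions of the statement of MP_d4a483_lc, inside a structure `(N, E)`: countable sets,
topological spaces and their bases, the real numbers, metrizable spaces.
-/

namespace ST.MA

open ST

section
variable {N : Type} (E : N → N → Prop)

/-- `z` contains the empty set and with `y` also `y ∪ {y}` -/
def IsInductive (z : N) : Prop := (∃ e, (∀ t, ¬ E t e) ∧ E e z) ∧
  ∀ y, E y z → ∃ s, (∀ t, E t s ↔ E t y ∨ t = y) ∧ E s z

/-- `w` is the set of natural numbers (the least inductive set) -/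
def IsOmega (w : N) : Prop := IsInductive E w ∧ ∀ z, IsInductive E z → Incl E w z

/-- `x` is countable: there is an injective function from `x` to the set of natural numbers -/
def IsCountable (x : N) : Prop := ∃ w f, IsOmega E w ∧
  (∀ y, E y x → ∃ n, E n w ∧ PairIn E y n f) ∧
  (∀ y n n', PairIn E y n f → PairIn E y n' f → n = n') ∧
  ∀ y y' n, E y x → E y' x → PairIn E y n f → PairIn E y' n f → y = y'

/-- `T` is (the set of open sets of) a topology on `X` -/
def IsTopology (X T : N) : Prop :=
  (∀ U, E U T → Incl E U X) ∧ E X T ∧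
  (∀ c u, Incl E c T → (∀ z, E z u ↔ ∃ U, E U c ∧ E z U) → E u T) ∧
  ∀ U V w, E U T → E V T → (∀ z, E z w ↔ E z U ∧ E z V) → E w T

/-- `C` is a closed subset of the space `X` with topology `T` -/
def IsClosedSet (X T C : N) : Prop := Incl E C X ∧ ∃ U, E U T ∧ ∀ z, E z U ↔ E z X ∧ ¬ E z C

/-- the space `X` with topology `T` is regular and `T₁` -/
def IsRegularSpace (X T : N) : Prop :=
  (∀ x, E x X → ∃ C, (∀ z, E z C ↔ z = x) ∧ IsClosedSet E X T C) ∧
  ∀ x C, E x X → IsClosedSet E X T C → ¬ E x C →
    ∃ U V, E U T ∧ E V T ∧ E x U ∧ Incl E C V ∧ ∀ z, ¬ (E z U ∧ E z V)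

/-- the space is separable: some countable subset of `X` meets every nonempty open set -/
def IsSeparableSpace (X T : N) : Prop := ∃ D, Incl E D X ∧ IsCountable E D ∧
  ∀ U, E U T → (∃ x, E x U) → ∃ x, E x U ∧ E x D

/-- `B` is a base of the topology `T` -/
def IsBaseOf (T B : N) : Prop := Incl E B T ∧
  ∀ U x, E U T → E x U → ∃ V, E V B ∧ E x V ∧ Incl E V U

/-- `B` is Noetherian: there is no sequence `A₀ ⊊ A₁ ⊊ ...` of members of `B` (the function
`f` is the sequence) -/
def IsNoetherianFamily (B : N) : Prop := ¬ ∃ w f, IsOmega E w ∧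
  (∀ n, E n w → ∃ A, E A B ∧ PairIn E n A f) ∧
  (∀ n A A', PairIn E n A f → PairIn E n A' f → A = A') ∧
  ∀ n s A A', E n w → (∀ t, E t s ↔ E t n ∨ t = n) → PairIn E n A f → PairIn E s A' f →
    Incl E A A' ∧ A ≠ A'

/-- `B` has countable rank: for every point `x` of `X`, every subfamily of `B` whose members
contain `x` and of which no member is contained in another one is countable -/
def HasCountableRank (X B : N) : Prop := ∀ x A, E x X → Incl E A B →
  (∀ U V, E U A → E V A → Incl E U V → U = V) → (∀ U, E U A → E x U) → IsCountable E A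

/-- the triple `((a, b), c)` is a member of `P` -/
def Trp (a b c P : N) : Prop := ∃ p, IsOP E p a b ∧ PairIn E p c P

/-- `P` is (the graph of) an operation on `R` -/
def IsOperation (R P : N) : Prop :=
  (∀ a b, E a R → E b R → ∃ c, E c R ∧ Trp E a b c P) ∧
  ∀ a b c c', E a R → E b R → Trp E a b c P → Trp E a b c' P → c = c'

/-- `R` with addition `P`, multiplication `Q` (graphs), order `L` (set of pairs), zero `z` and
unit `u` is a complete ordered field, that is, a copy of the real numbers -/
structure IsRealNumbers (R P Q L z u : N) : Prop where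
  zero_mem : E z R
  one_mem : E u R
  ne : z ≠ u
  add_op : IsOperation E R P
  mul_op : IsOperation E R Q
  add_comm : ∀ a b c, E a R → E b R → Trp E a b c P → Trp E b a c P
  add_assoc : ∀ a b c x y s, E a R → E b R → E c R → Trp E a b x P → Trp E x c s P → Trp E b c y P →
    Trp E a y s P
  zero_add : ∀ a, E a R → Trp E z a a P
  neg : ∀ a, E a R → ∃ b, E b R ∧ Trp E a b z P
  mul_comm : ∀ a b c, E a R → E b R → Trp E a b c Q → Trp E b a c Q
  mul_assoc : ∀ a b c x y s, E a R → E b R → E c R → Trp E a b x Q → Trp E x c s Q → Trp E b c y Q →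
    Trp E a y s Q
  one_mul : ∀ a, E a R → Trp E u a a Q
  inv : ∀ a, E a R → a ≠ z → ∃ b, E b R ∧ Trp E a b u Q
  distrib : ∀ a b c s t x y, E a R → E b R → E c R → Trp E b c s P → Trp E a s t Q →
    Trp E a b x Q → Trp E a c y Q → Trp E x y t P
  le_refl : ∀ a, E a R → PairIn E a a L
  le_antisymm : ∀ a b, E a R → E b R → PairIn E a b L → PairIn E b a L → a = b
  le_trans : ∀ a b c, E a R → E b R → E c R → PairIn E a b L → PairIn E b c L → PairIn E a c L
  le_total : ∀ a b, E a R → E b R → PairIn E a b L ∨ PairIn E b a L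
  add_le : ∀ a b c x y, E a R → E b R → E c R → PairIn E a b L → Trp E a c x P → Trp E b c y P →
    PairIn E x y L
  mul_nonneg : ∀ a b c, E a R → E b R → PairIn E z a L → PairIn E z b L → Trp E a b c Q →
    PairIn E z c L
  sup : ∀ S, Incl E S R → (∃ a, E a S) → (∃ b, E b R ∧ ∀ a, E a S → PairIn E a b L) →
    ∃ s, E s R ∧ (∀ a, E a S → PairIn E a s L) ∧
      ∀ b, E b R → (∀ a, E a S → PairIn E a b L) → PairIn E s b L

/-- `d` is (the graph of) a metric on `X` with values in the real numbers `R` (addition `P`,
order `L`, zero `z`) whose topology is `T` -/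
def IsMetricFor (X T R P L z d : N) : Prop :=
  (∀ x y, E x X → E y X → ∃ c, E c R ∧ Trp E x y c d) ∧
  (∀ x y c c', E x X → E y X → Trp E x y c d → Trp E x y c' d → c = c') ∧
  (∀ x y, E x X → E y X → (Trp E x y z d ↔ x = y)) ∧
  (∀ x y c, E x X → E y X → Trp E x y c d → Trp E y x c d) ∧
  (∀ x y v a b c s, E x X → E y X → E v X → Trp E x y a d → Trp E y v b d → Trp E x v c d →
    Trp E a b s P → PairIn E c s L) ∧
  ∀ U, E U T ↔ Incl E U X ∧ ∀ x, E x U → ∃ r, E r R ∧ PairIn E z r L ∧ r ≠ z ∧
    ∀ y c, E y X → Trp E x y c d → PairIn E c r L → c ≠ r → E y U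

/-- the space `X` with topology `T` is metrizable: for every copy of the real numbers there is a
metric with values in it whose topology is `T` -/
def IsMetrizableSpace (X T : N) : Prop := ∀ R P Q L z u, IsRealNumbers E R P Q L z u →
  ∃ d, IsMetricFor E X T R P L z d

/-- the metrization statement for the structure `N`: if a separable regular space `X` (with
topology `T`) of `N` has a base `B` which is Noetherian and of countable rank, then `B` is
countable and the space is metrizable -/
def MetrizationIn : Prop := ∀ X T B : N, IsTopology E X T →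
  IsRegularSpace E X T → IsSeparableSpace E X T → IsBaseOf E T B → IsNoetherianFamily E B →
  HasCountableRank E X B → IsCountable E B ∧ IsMetrizableSpace E X T

end

end ST.MA
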