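import Pool.Agent.H77.ST.MAD
import Pool.Agent.H77.ST.Conv
import Pool.Agent.H13.MA.All

namespace ST.MA

open ST

theorem real_iff {N : Type} (E : N → N → Prop) (R P Q L z u : N) :
    @SW.IsRealNumbers N ⟨E⟩ R P Q L z u ↔ IsRealNumbers E R P Q L z u :=
  ⟨fun h => by
    obtain ⟨a1, a2, a3, a4, a5, a6, a7, a8, a9, b1, b2, b3, b4, b5, b6, b7, b8, b9, c1, c2, c3⟩ := h
    exact ⟨a1, a2, a3, a4, a5, a6, a7, a8, a9, b1, b2, b3, b4, b5, b6, b7, b8, b9, c1, c2, c3⟩,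
  fun h => by
    obtain ⟨a1, a2, a3, a4, a5, a6, a7, a8, a9, b1, b2, b3, b4, b5, b6, b7, b8, b9, c1, c2, c3⟩ := h
    exact @SW.IsRealNumbers.mk N ⟨E⟩ R P Q L z u a1 a2 a3 a4 a5 a6 a7 a8 a9 b1 b2 b3 b4 b5 b6 b7
      b8 b9 c1 c2 c3⟩

theorem metr_iff {N : Type} (E : N → N → Prop) (X T : N) :
    @SW.IsMetrizableSpace N ⟨E⟩ X T ↔ IsMetrizableSpace E X T :=
  ⟨fun h R P Q L z u hR => h R P Q L z u ((real_iff E R P Q L z u).2 hR),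
   fun h R P Q L z u hR => h R P Q L z u ((real_iff E R P Q L z u).1 hR)⟩

theorem metrization_iff {N : Type} (E : N → N → Prop) :
    @SW.MetrizationIn N ⟨E⟩ ↔ MetrizationIn E :=
  ⟨fun h X T B h1 h2 h3 h4 h5 h6 =>
    ⟨(h X T B h1 h2 h3 h4 h5 h6).1, (metr_iff E X T).1 (h X T B h1 h2 h3 h4 h5 h6).2⟩,
   fun h X T B h1 h2 h3 h4 h5 h6 =>
    ⟨(h X T B h1 h2 h3 h4 h5 h6).1, (metr_iff E X T).2 (h X T B h1 h2 h3 h4 h5 h6).2⟩⟩

theorem main :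
    ∃ φ : Fml 0,
      (∀ (N : Type) (E : N → N → Prop), Sat E φ Fin.elim0 ↔ MetrizationIn E) ∧
      (∀ (M : Type) (D : M → M → Prop), Countable M → ZFC D →
        ∃ (N : Type) (E : N → N → Prop) (i : M → N),
          ZFC E ∧ IsGenExt D E i ∧ Sat E φ Fin.elim0) ∧
      (∀ (M : Type) (D : M → M → Prop), ZFC D →
        ∃ (N : Type) (E : N → N → Prop), ZFC E ∧ Sat E φ Fin.elim0) ∧
      ∃ (N : Type) (E : N → N → Prop), ZFC E ∧ Countable N ∧ Sat E φ Fin.elim0 := by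
  obtain ⟨φ, hφ⟩ := SW.exists_sentence
  obtain ⟨h1, h2, h3⟩ := SW.t_all
  have key : ∀ (N : Type) (E : N → N → Prop), Sat E (back φ) Fin.elim0 ↔ MetrizationIn E :=
    fun N E => ((sat_back E φ _).trans (@hφ N ⟨E⟩)).trans (metrization_iff E)
  have key2 : ∀ (N : Type) (E : N → N → Prop), @SW.MetrizationIn N ⟨E⟩ →
      Sat E (back φ) Fin.elim0 := fun N E h => (key N E).2 ((metrization_iff E).1 h)
  refine ⟨back φ, key, ?_, ?_, ?_⟩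
  · intro M D hc hz
    obtain ⟨N, a, b, i, hi, hN⟩ := @h1 M ⟨D⟩ (zfc_to D hz) hc
    obtain ⟨E⟩ := a
    exact ⟨N, E, i, zfc_of E b, gen_of D E i hi, key2 N E hN⟩
  · intro M D hz
    obtain ⟨N, a, b, hN⟩ := @h2 M ⟨D⟩ (zfc_to D hz)
    obtain ⟨E⟩ := a
    exact ⟨N, E, zfc_of E b, key2 N E hN⟩
  · obtain ⟨N, a, b, hc, hN⟩ := h3
    obtain ⟨E⟩ := a
    exact ⟨N, E, zfc_of E b, hc, key2 N E hN⟩

end ST.MA
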