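import Pool.Agent.H77.ST.Base

/-!
The notions of the statement of MP_238570_lc, inside a structure `(N, E)`: the continuum
hypothesis, the constructible hierarchy, projective classes of the Baire space, the separation
property.
-/

namespace ST.SE

open ST

section
variable {N : Type} (E : N → N → Prop)

/-- `z` contains the empty set and with `y` also `y ∪ {y}` -/
def IsInductive (z : N) : Prop := (∃ e, (∀ t, ¬ E t e) ∧ E e z) ∧
  ∀ y, E y z → ∃ s, (∀ t, E t s ↔ E t y ∨ t = y) ∧ E s z

/-- `w` is the set of natural numbers (the least inductive set) -/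
def IsOmega (w : N) : Prop := IsInductive E w ∧ ∀ z, IsInductive E z → Incl E w z

/-- `x` is countable: there is an injective function from `x` to the set of natural numbers -/
def IsCountable (x : N) : Prop := ∃ w f, IsOmega E w ∧
  (∀ y, E y x → ∃ n, E n w ∧ PairIn E y n f) ∧
  (∀ y n n', PairIn E y n f → PairIn E y n' f → n = n') ∧
  ∀ y y' n, E y x → E y' x → PairIn E y n f → PairIn E y' n f → y = y'

/-- `x` is a transitive set -/
def IsTransitive (x : N) : Prop := ∀ y, E y x → Incl E y x

/-- `w` is the first uncountable ordinal: a transitive set of transitive sets, which is not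
countable, all members of which are countable -/
def IsOmegaOne (w : N) : Prop := (IsTransitive E w ∧ ∀ y, E y w → IsTransitive E y) ∧
  ¬ IsCountable E w ∧ ∀ a, E a w → IsCountable E a

/-- the continuum hypothesis: there are `w`, the first uncountable ordinal, and `f` which assigns
members of `w` to the subsets of the set of natural numbers, injectively -/
def ContinuumHypothesis : Prop := ∃ w o f : N, IsOmegaOne E w ∧ IsOmega E o ∧
  (∀ x, Incl E x o → ∃ a, E a w ∧ PairIn E x a f) ∧
  ∀ x x' a, Incl E x o → Incl E x' o → PairIn E x a f → PairIn E x' a f → x = x'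

/-- `v` is a function from `a` to `o` -/
def IsFunction (v a o : N) : Prop := (∀ z, E z v → ∃ x y, E x a ∧ E y o ∧ IsOP E z x y) ∧
  ∀ x, E x a → ∃ y, PairIn E x y v ∧ ∀ y', PairIn E x y' v → y' = y

/-- `t` is the ordered triple `((u, v), w)` -/
def IsTriple (t u v w : N) : Prop := ∃ p, IsOP E p u v ∧ IsOP E t p w

/-- `z` is the value of one of the ten Goedel operations at `x`, `y` (Jech, Set Theory,
Definition 13.6): the unordered pair, the product, the membership relation between `x` and `y`,
the difference, the intersection, the union of `x`, the domain of `x`, and three operations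
permuting the components of ordered pairs and triples in `x` -/
def IsGoedelValue (z x y : N) : Prop :=
  (∀ t, E t z ↔ t = x ∨ t = y) ∨
  (∀ t, E t z ↔ ∃ u v, E u x ∧ E v y ∧ IsOP E t u v) ∨
  (∀ t, E t z ↔ ∃ u v, E u x ∧ E v y ∧ E u v ∧ IsOP E t u v) ∨
  (∀ t, E t z ↔ E t x ∧ ¬ E t y) ∨
  (∀ t, E t z ↔ E t x ∧ E t y) ∨
  (∀ t, E t z ↔ ∃ u, E u x ∧ E t u) ∨
  (∀ t, E t z ↔ ∃ v, PairIn E t v x) ∨
  (∀ t, E t z ↔ ∃ u v, IsOP E t u v ∧ PairIn E v u x) ∨
  (∀ t, E t z ↔ ∃ u v w, IsTriple E t u v w ∧ ∃ s, IsTriple E s u w v ∧ E s x) ∨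
  (∀ t, E t z ↔ ∃ u v w, IsTriple E t u v w ∧ ∃ s, IsTriple E s v w u ∧ E s x)

/-- the set `c` is closed under the Goedel operations -/
def IsGoedelClosed (c : N) : Prop := ∀ x y z, E x c → E y c → IsGoedelValue E z x y → E z c

/-- `c` is the closure of `a` under the Goedel operations -/
def IsGoedelClosure (a c : N) : Prop := Incl E a c ∧ IsGoedelClosed E c ∧
  ∀ d, Incl E a d → IsGoedelClosed E d → Incl E c d

/-- `d` is the set of definable subsets of the (transitive) set `a`: the members of the closure of
`a ∪ {a}` under the Goedel operations which are subsets of `a` (Jech, Corollary 13.8) -/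
def IsDefinablePower (a d : N) : Prop := ∃ s c, (∀ t, E t s ↔ E t a ∨ t = a) ∧
  IsGoedelClosure E s c ∧ ∀ y, E y d ↔ E y c ∧ Incl E y a

/-- `d` is an ordinal: a transitive set of transitive sets -/
def IsOrdinal (d : N) : Prop := IsTransitive E d ∧ ∀ y, E y d → IsTransitive E y

/-- `f` is the function which assigns to each ordinal `b ≤ d` the level `b` of the constructible
hierarchy, that is, the union over all `c < b` of the set of definable subsets of the level `c` -/
def IsHierarchy (f d : N) : Prop := IsOrdinal E d ∧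
  (∀ z, E z f → ∃ b y, (E b d ∨ b = d) ∧ IsOP E z b y) ∧
  ∀ b, (E b d ∨ b = d) → ∃ y, PairIn E b y f ∧ (∀ y', PairIn E b y' f → y' = y) ∧
    ∀ t, E t y ↔ ∃ c u e, E c b ∧ PairIn E c u f ∧ IsDefinablePower E u e ∧ E t e

/-- `x` is a point of the Baire space: a function from the set `o` of natural numbers to itself -/
def IsPoint (o x : N) : Prop := IsFunction E x o o

/-- the quadruple `(x, (y, (w, v)))` is a member of `C` -/
def QuadIn (x y w v C : N) : Prop := ∃ p q, IsOP E p w v ∧ IsOP E q y p ∧ PairIn E x q C

/-- the functions `x` and `x'` agree below `n` -/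
def AgreeBelow (n x x' : N) : Prop := ∀ k a, E k n → (PairIn E k a x ↔ PairIn E k a x')

/-- the set of quadruples of points of the Baire space which are members of `C` is closed -/
def IsClosed4 (o C : N) : Prop := ∀ x y w v, IsPoint E o x → IsPoint E o y → IsPoint E o w →
  IsPoint E o v → ¬ QuadIn E x y w v C → ∃ n, E n o ∧ ∀ x' y' w' v', IsPoint E o x' → IsPoint E o y' →
    IsPoint E o w' → IsPoint E o v' → AgreeBelow E n x x' → AgreeBelow E n y y' → AgreeBelow E n w w' →
    AgreeBelow E n v v' → ¬ QuadIn E x' y' w' v' C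

/-- `A` is a (boldface) Sigma-1-3 subset of the Baire space: for some closed set `C` it is the set
of all points `x` such that for some point `y`, for all points `w`, for some point `v`, the
quadruple `(x, y, w, v)` is in `C` -/
def IsSigma13 (o A : N) : Prop := (∀ x, E x A → IsPoint E o x) ∧ ∃ C, IsClosed4 E o C ∧
  ∀ x, IsPoint E o x → (E x A ↔ ∃ y, IsPoint E o y ∧ ∀ w, IsPoint E o w →
    ∃ v, IsPoint E o v ∧ QuadIn E x y w v C)

/-- `A` is a (boldface) Delta-1-3 subset of the Baire space: `A` and its complement are
Sigma-1-3 -/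
def IsDelta13 (o A : N) : Prop := IsSigma13 E o A ∧ ∃ B, IsSigma13 E o B ∧
  ∀ x, IsPoint E o x → (E x B ↔ ¬ E x A)

/-- the axiom of constructibility: every set is in some level of the constructible hierarchy -/
def AxiomOfConstructibility : Prop :=
  ∀ x : N, ∃ f d y, IsHierarchy E f d ∧ PairIn E d y f ∧ E x y

/-- the (boldface) Sigma-1-3-separation property: for any two disjoint Sigma-1-3 sets `A`, `B`
of points of the Baire space there is a Delta-1-3 set `C` which contains `A` and is disjoint
from `B` -/
def Sigma13Separation : Prop := ∀ o A B : N, IsOmega E o → IsSigma13 E o A →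
  IsSigma13 E o B → (∀ x, ¬ (E x A ∧ E x B)) →
  ∃ C, IsDelta13 E o C ∧ Incl E A C ∧ ∀ x, ¬ (E x B ∧ E x C)

/-- in `N` there are at least as many subsets of the set of natural numbers as members of `k` -/
def ContinuumAtLeast (k : N) : Prop := ∃ o f, IsOmega E o ∧
  (∀ a, E a k → ∃ x, Incl E x o ∧ PairIn E a x f) ∧
  ∀ a a' x, E a k → E a' k → PairIn E a x f → PairIn E a' x f → a = a'

end

end ST.SE
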