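import Pool.Agent.H77.ST.SED
import Pool.Agent.H77.ST.Conv
import Pool.Agent.H63.SEP.All

namespace ST.SE

open ST

theorem main (M : Type) (D : M → M → Prop) (hc : Countable M) (hz : ZFC D)
    (hL : AxiomOfConstructibility D) (K : M) :
    ∃ (N : Type) (E : N → N → Prop) (i : M → N), ZFC E ∧ IsGenExt D E i ∧
      Sigma13Separation E ∧ ¬ ContinuumHypothesis E ∧ ContinuumAtLeast E (i K) := by
  obtain ⟨N, a, b, i, hi, h1, h2, h3⟩ := @SW.SEP.t_main M ⟨D⟩ (zfc_to D hz) hc hL K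
  obtain ⟨E⟩ := a
  exact ⟨N, E, i, zfc_of E b, gen_of D E i hi, h1, h2, h3⟩

end ST.SE
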